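import Mathlib

open Matrix Module

namespace Pool.Agent.Results.MP_62a5ad_mp.ProductIntegrals

variable {K : Type*} [Field K] {d : ℕ}

/-- Generalized cross product of `d` vectors in `K^(d+1)`. -/
def crossP (w : Fin d → Fin (d + 1) → K) : Fin (d + 1) → K :=
  fun i => (Matrix.of (Fin.cons (Pi.single i 1) w : Fin (d + 1) → Fin (d + 1) → K)).det

theorem crossP_dot (w : Fin d → Fin (d + 1) → K) (u : Fin (d + 1) → K) :
    crossP w ⬝ᵥ u = (Matrix.of (Fin.cons u w : Fin (d + 1) → Fin (d + 1) → K)).det := by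
  have h : ∀ x : Fin (d + 1) → K, (Matrix.of (Fin.cons x w : Fin (d + 1) → Fin (d + 1) → K)).det =
      ∑ j : Fin (d + 1), (-1) ^ (j : ℕ) * x j *
        (Matrix.of (fun a b : Fin d => w a (j.succAbove b))).det := by
    intro x
    rw [Matrix.det_succ_row_zero]
    refine Finset.sum_congr rfl fun j _ => ?_
    congr 1
  rw [h u]
  simp only [dotProduct, crossP, h]
  refine Finset.sum_congr rfl fun i _ => ?_
  rw [Finset.sum_eq_single i]
  · simp only [Pi.single_eq_same]
    ring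
  · intro j _ hj
    simp [Pi.single_eq_of_ne hj]
  · intro hi
    exact absurd (Finset.mem_univ i) hi

theorem crossP_dot_self (w : Fin d → Fin (d + 1) → K) (j : Fin d) : crossP w ⬝ᵥ w j = 0 := by
  rw [crossP_dot]
  apply Matrix.det_zero_of_row_eq (i := 0) (j := j.succ)
  · exact (Fin.succ_ne_zero j).symm
  · rfl

/-- The cross product of covectors vanishing at `v ≠ 0` is a multiple of `v`. -/
theorem crossP_of_ann (w : Fin d → Fin (d + 1) → K) (v : Fin (d + 1) → K) (hv : v ≠ 0)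
    (h : ∀ j, w j ⬝ᵥ v = 0) : ∃ c : K, crossP w = c • v := by
  obtain ⟨i, hi⟩ := Function.ne_iff.1 hv
  refine ⟨crossP w i / v i, ?_⟩
  funext j
  have h0 : crossP w ⬝ᵥ (v i • Pi.single j 1 - v j • Pi.single i 1) = 0 := by
    rw [crossP_dot]
    by_contra hne
    have := Matrix.eq_zero_of_mulVec_eq_zero hne (v := v) (by
      funext a
      refine Fin.cases ?_ (fun b => ?_) a
      · change (v i • Pi.single j (1 : K) - v j • Pi.single i 1) ⬝ᵥ v = 0
        simp [sub_dotProduct, smul_dotProduct]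
        ring
      · change w b ⬝ᵥ v = 0
        exact h b)
    exact hv this
  rw [dotProduct_sub, dotProduct_smul, dotProduct_smul, dotProduct_single, dotProduct_single,
    smul_eq_mul, smul_eq_mul, mul_one, mul_one, sub_eq_zero] at h0
  simp only [Pi.smul_apply, smul_eq_mul]
  simp only [Pi.zero_apply] at hi
  field_simp
  linear_combination h0

theorem crossP_mulVec (M : Matrix (Fin (d + 1)) (Fin (d + 1)) K) (w : Fin d → Fin (d + 1) → K) :
    crossP (fun j => M *ᵥ w j) ᵥ* M = M.det • crossP w := by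
  apply dotProduct_eq
  intro u
  rw [← Matrix.dotProduct_mulVec, crossP_dot, smul_dotProduct, crossP_dot]
  have : (Matrix.of (Fin.cons (M *ᵥ u) (fun j => M *ᵥ w j) : Fin (d + 1) → Fin (d + 1) → K)) =
      (Matrix.of (Fin.cons u w : Fin (d + 1) → Fin (d + 1) → K)) * Mᵀ := by
    ext i j
    refine Fin.cases ?_ (fun b => ?_) i
    · change (M *ᵥ u) j = _
      simp only [Matrix.mul_apply, Matrix.mulVec, dotProduct, Matrix.transpose_apply]
      exact Finset.sum_congr rfl fun x _ => mul_comm _ _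
    · change (M *ᵥ w b) j = _
      simp only [Matrix.mul_apply, Matrix.mulVec, dotProduct, Matrix.transpose_apply]
      exact Finset.sum_congr rfl fun x _ => mul_comm _ _
  rw [this, Matrix.det_mul, Matrix.det_transpose, smul_eq_mul, mul_comm]

theorem crossP_smul (t : Fin d → K) (w : Fin d → Fin (d + 1) → K) :
    crossP (fun j => t j • w j) = (∏ j, t j) • crossP w := by
  funext i
  simp only [crossP, Pi.smul_apply, smul_eq_mul]
  have : (Matrix.of (Fin.cons (Pi.single i 1) (fun j => t j • w j) :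
      Fin (d + 1) → Fin (d + 1) → K)) = Matrix.of fun a b => (Fin.cons 1 t : Fin (d + 1) → K) a *
        (Matrix.of (Fin.cons (Pi.single i 1) w : Fin (d + 1) → Fin (d + 1) → K)) a b := by
    ext a b
    refine Fin.cases ?_ (fun c => ?_) a
    · simp
    · simp
  rw [this, Matrix.det_mul_column, Fin.prod_univ_succ]
  simp

/-- The bracket `det (V_{k+e}, V_{k+s_0}, …, V_{k+s_{d-1}})`. -/
def bracket (s : Fin d → ℤ) (e : ℤ) (V : ℤ → Fin (d + 1) → K) (k : ℤ) : K :=
  (Matrix.of (Fin.cons (V (k + e)) (fun j => V (k + s j)) : Fin (d + 1) → Fin (d + 1) → K)).det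

/-- Covectors of the hyperplanes. -/
def dualP (s : Fin d → ℤ) (V : ℤ → Fin (d + 1) → K) (k : ℤ) : Fin (d + 1) → K :=
  crossP fun j => V (k + s j)

theorem dualP_dot (s : Fin d → ℤ) (V : ℤ → Fin (d + 1) → K) (k e : ℤ) :
    dualP s V k ⬝ᵥ V (k + e) = bracket s e V k := crossP_dot _ _

theorem dualP_dot_self (s : Fin d → ℤ) (V : ℤ → Fin (d + 1) → K) (k : ℤ) (j : Fin d) :
    dualP s V k ⬝ᵥ V (k + s j) = 0 := crossP_dot_self (fun j => V (k + s j)) j

/-- `x ↦ c - x` maps `S` into `S ∪ {e}` and `e` into `S`. -/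
def SymmExt (s : Fin d → ℤ) (e c : ℤ) : Prop :=
  (∀ j, c - s j = e ∨ ∃ j', c - s j = s j') ∧ ∃ j, c - e = s j

/-- The reflection as a permutation. -/
theorem exists_perm (s : Fin d → ℤ) (e c : ℤ) (hinj : Function.Injective (Fin.cons e s : Fin (d + 1) → ℤ))
    (h : SymmExt s e c) : ∃ σ : Equiv.Perm (Fin (d + 1)),
      ∀ i, c - (Fin.cons e s : Fin (d + 1) → ℤ) i = (Fin.cons e s : Fin (d + 1) → ℤ) (σ i) := by
  have h1 : ∀ i, ∃ i', c - (Fin.cons e s : Fin (d + 1) → ℤ) i =
      (Fin.cons e s : Fin (d + 1) → ℤ) i' := by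
    intro i
    refine Fin.cases ?_ (fun j => ?_) i
    · obtain ⟨j, hj⟩ := h.2
      exact ⟨j.succ, by simpa using hj⟩
    · rcases h.1 j with h0 | ⟨j', hj'⟩
      · exact ⟨0, by simpa using h0⟩
      · exact ⟨j'.succ, by simpa using hj'⟩
  choose f hf using h1
  have hfi : Function.Injective f := by
    intro x y hxy
    apply hinj
    have hx := hf x
    have hy := hf y
    rw [hxy] at hx
    linarith
  exact ⟨Equiv.ofBijective f (Finite.injective_iff_bijective.1 hfi), hf⟩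

theorem exists_C (s : Fin d → ℤ) (V : ℤ → Fin (d + 1) → K) (hV : ∀ k, V k ≠ 0) :
    ∃ C : ℤ → K, ∀ m : ℤ, crossP (fun j => dualP s V (m - s j)) = C m • V m := by
  have hC : ∀ m : ℤ, ∃ c : K, crossP (fun j => dualP s V (m - s j)) = c • V m := by
    intro m
    apply crossP_of_ann _ _ (hV m)
    intro j
    have := dualP_dot_self s V (m - s j) j
    rwa [sub_add_cancel] at this
  choose C hC using hC
  exact ⟨C, hC⟩

/-- Key identity: the bracket of the hyperplanes. -/
theorem bracket_dual (s : Fin d → ℤ) (e c : ℤ)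
    (hinj : Function.Injective (Fin.cons e s : Fin (d + 1) → ℤ)) (hs : SymmExt s e c) :
    ∃ ε : K, ε ^ 2 = 1 ∧ ∀ (V : ℤ → Fin (d + 1) → K) (C : ℤ → K),
      (∀ m : ℤ, crossP (fun j => dualP s V (m - s j)) = C m • V m) → ∀ k,
        bracket s e (dualP s V) k = ε * C (k + c) * bracket s e V (k + (c - e)) := by
  obtain ⟨σ, hσ⟩ := exists_perm s e c hinj hs
  refine ⟨((Equiv.Perm.sign σ : ℤˣ) : ℤ), ?_, ?_⟩
  · rcases Int.units_eq_one_or (Equiv.Perm.sign σ) with h | h <;> rw [h] <;> simp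
  · intro V C hC k
    set q : Fin (d + 1) → ℤ := Fin.cons e s with hq
    have h1 : bracket s e (dualP s V) k = (Matrix.of fun i => dualP s V (k + q i)).det := by
      unfold bracket
      congr 1
      ext i j
      refine Fin.cases ?_ (fun b => ?_) i
      · simp [hq]
      · simp [hq]
    have h2 : (Matrix.of fun i => dualP s V (k + c - q i)).det =
        ((Equiv.Perm.sign σ : ℤˣ) : ℤ) * (Matrix.of fun i => dualP s V (k + q i)).det := by
      rw [← Matrix.det_permute]
      congr 1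
      ext i j
      simp only [Matrix.of_apply, Matrix.submatrix_apply, id]
      rw [← hσ i]
      congr 1
      ring
    have h3 : (Matrix.of fun i => dualP s V (k + c - q i)).det =
        C (k + c) * bracket s e V (k + (c - e)) := by
      have h4 : (Matrix.of fun i => dualP s V (k + c - q i)) =
          Matrix.of (Fin.cons (dualP s V (k + (c - e))) (fun j => dualP s V (k + c - s j)) :
            Fin (d + 1) → Fin (d + 1) → K) := by
        ext i j
        refine Fin.cases ?_ (fun b => ?_) i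
        · simp only [hq, Matrix.of_apply, Fin.cons_zero]
          congr 2
          ring
        · simp [hq]
      rw [h4, ← crossP_dot, hC, smul_dotProduct, dotProduct_comm, smul_eq_mul]
      congr 1
      have := dualP_dot s V (k + (c - e)) e
      rwa [show k + (c - e) + e = k + c by ring] at this
    have h5 : (((Equiv.Perm.sign σ : ℤˣ) : ℤ) : K) ^ 2 = 1 := by
      rcases Int.units_eq_one_or (Equiv.Perm.sign σ) with h | h <;> rw [h] <;> simp
    rw [h1, mul_assoc, ← h3, h2, ← mul_assoc, ← pow_two, h5, one_mul]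

/-! ### quasi-periodic products -/

/-- Product of `f` over one period of the progression `r, r + g, r + 2 g, …`. -/
def prodAP (g : ℤ) (N : ℕ) (f : ℤ → K) (r : ℤ) : K := ∏ i ∈ Finset.range N, f (r + g * i)

theorem prodAP_ne (g : ℤ) (N : ℕ) (f : ℤ → K) (hf : ∀ k, f k ≠ 0) (r : ℤ) :
    prodAP g N f r ≠ 0 := Finset.prod_ne_zero_iff.2 fun _ _ => hf _

theorem prodAP_mul (g : ℤ) (N : ℕ) (f h : ℤ → K) (r : ℤ) :
    prodAP g N (fun k => f k * h k) r = prodAP g N f r * prodAP g N h r :=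
  Finset.prod_mul_distrib

theorem prodAP_const (g : ℤ) (N : ℕ) (c : K) (r : ℤ) : prodAP g N (fun _ => c) r = c ^ N := by
  simp [prodAP]

theorem prodAP_comp (g : ℤ) (N : ℕ) (f : ℤ → K) (u r : ℤ) :
    prodAP g N (fun k => f (k + u)) r = prodAP g N f (r + u) := by
  unfold prodAP
  refine Finset.prod_congr rfl fun i _ => ?_
  have h : r + g * (i : ℤ) + u = r + u + g * i := by ring
  exact congrArg f h

theorem prodAP_step (g : ℤ) (N : ℕ) (f : ℤ → K) (hf : ∀ k, f k ≠ 0) (δ : K)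
    (hp : ∀ k, f (k + g * N) = δ * f k) (r : ℤ) : prodAP g N f (r + g) = δ * prodAP g N f r := by
  have h1 : prodAP g (N + 1) f r = prodAP g N f r * f (r + g * N) := Finset.prod_range_succ _ _
  have h2 : prodAP g (N + 1) f r = prodAP g N f (r + g) * f r := by
    unfold prodAP
    rw [Finset.prod_range_succ']
    congr 1
    · refine Finset.prod_congr rfl fun i _ => ?_
      congr 1
      push_cast
      ring
    · simp
  rw [h2, hp] at h1
  apply mul_right_cancel₀ (hf r)
  rw [h1]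
  ring

theorem prodAP_shift (g : ℤ) (N : ℕ) (f : ℤ → K) (hf : ∀ k, f k ≠ 0) (δ : K) (hδ : δ ≠ 0)
    (hp : ∀ k, f (k + g * N) = δ * f k) (r m : ℤ) :
    prodAP g N f (r + g * m) = δ ^ m * prodAP g N f r := by
  induction m using Int.induction_on with
  | zero => simp
  | succ i ih =>
    have e : r + g * ((i : ℤ) + 1) = r + g * i + g := by ring
    rw [e, prodAP_step g N f hf δ hp, ih, zpow_add_one₀ hδ]
    ring
  | pred i ih =>
    have e : r + g * (-(i : ℤ)) = r + g * (-(i : ℤ) - 1) + g := by ring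
    rw [e, prodAP_step g N f hf δ hp] at ih
    rw [zpow_sub_one₀ hδ]
    field_simp
    linear_combination ih

/-- The product-form function: with `[k; e] = bracket s e V k`,
`∏_{i < N} [r - c + g i; e] / ∏_{i < N} [r - c' + g i; e']`. -/
def prodInt (s : Fin d → ℤ) (e c e' c' : ℤ) (g : ℤ) (N : ℕ) (V : ℤ → Fin (d + 1) → K) (r : ℤ) : K :=
  prodAP g N (bracket s e V) (r - c) / prodAP g N (bracket s e' V) (r - c')

theorem prodInt_dual (s : Fin d → ℤ) (e c e' c' : ℤ)
    (hi : Function.Injective (Fin.cons e s : Fin (d + 1) → ℤ))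
    (hi' : Function.Injective (Fin.cons e' s : Fin (d + 1) → ℤ))
    (hs : SymmExt s e c) (hs' : SymmExt s e' c') (g m : ℤ) (N : ℕ)
    (hm : (c' - e') - (c - e) = g * m) :
    ∃ η : K, η ^ 2 = 1 ∧ ∀ (V : ℤ → Fin (d + 1) → K) (δ : K), δ ≠ 0 → (∀ k, V k ≠ 0) →
      (∀ k, bracket s e V k ≠ 0) → (∀ k, bracket s e' V k ≠ 0) →
      (∀ k, bracket s e' V (k + g * N) = δ * bracket s e' V k) →
      (∀ k, bracket s e (dualP s V) k ≠ 0) → 
      (∀ k, bracket s e' (dualP s V) k ≠ 0) ∧ ∀ r,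
      prodInt s e c e' c' g N (dualP s V) r = η * δ ^ (-m) * prodInt s e c e' c' g N V (r + (c - e)) := by
  obtain ⟨ε, hε, h1⟩ := bracket_dual (K := K) s e c hi hs
  obtain ⟨ε', hε', h1'⟩ := bracket_dual (K := K) s e' c' hi' hs'
  have hε0 : ε ≠ 0 := by rintro rfl; simp at hε
  have hε0' : ε' ≠ 0 := by rintro rfl; simp at hε'
  refine ⟨ε ^ N / ε' ^ N, ?_, ?_⟩
  · rw [div_pow, ← pow_mul, ← pow_mul, mul_comm N 2, pow_mul, pow_mul, hε, hε', one_pow, div_one]
  · intro V δ hδ hV hX hX' hper hW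
    obtain ⟨C, hC⟩ := exists_C s V hV
    have hb := h1 V C hC
    have hb' := h1' V C hC
    have hC0 : ∀ k, C k ≠ 0 := by
      intro k h0
      apply hW (k - c)
      rw [hb, sub_add_cancel, h0]
      ring
    refine ⟨?_, ?_⟩
    · intro k
      rw [hb']
      exact mul_ne_zero (mul_ne_zero hε0' (hC0 _)) (hX' _)
    · intro r
      have e1 : prodAP g N (bracket s e (dualP s V)) (r - c) =
          ε ^ N * prodAP g N C r * prodAP g N (bracket s e V) (r + (c - e) - c) := by
        have : bracket s e (dualP s V) = fun k => (ε * C (k + c)) * bracket s e V (k + (c - e)) :=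
          funext hb
        rw [this, prodAP_mul, prodAP_mul, prodAP_const, prodAP_comp g N C, prodAP_comp g N
          (bracket s e V), sub_add_cancel]
        congr 2
        ring
      have e2 : prodAP g N (bracket s e' (dualP s V)) (r - c') =
          ε' ^ N * prodAP g N C r * (δ ^ m * prodAP g N (bracket s e' V) (r + (c - e) - c')) := by
        have : bracket s e' (dualP s V) = fun k => (ε' * C (k + c')) * bracket s e' V (k + (c' - e')) :=
          funext hb'
        rw [this, prodAP_mul, prodAP_mul, prodAP_const, prodAP_comp g N C, prodAP_comp g N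
          (bracket s e' V), sub_add_cancel]
        rw [← prodAP_shift g N (bracket s e' V) hX' δ hδ hper]
        congr 2
        linear_combination hm
      have p1 : prodAP g N C r ≠ 0 := prodAP_ne _ _ _ hC0 _
      have p2 : prodAP g N (bracket s e' V) (r + (c - e) - c') ≠ 0 := prodAP_ne _ _ _ hX' _
      have p3 : δ ^ m ≠ 0 := zpow_ne_zero _ hδ
      unfold prodInt
      rw [e1, e2, _root_.zpow_neg]
      field_simp

/-! ### hyperplanes, image, twisted polygons -/

/-- The hyperplane `P_k` spanned by `V_{k+s_j}`. -/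
def hyper (s : Fin d → ℤ) (V : ℤ → Fin (d + 1) → K) (k : ℤ) : Submodule K (Fin (d + 1) → K) :=
  Submodule.span K (Set.range fun j => V (k + s j))

theorem dual_dot_of_mem (s : Fin d → ℤ) (V : ℤ → Fin (d + 1) → K) (k : ℤ) (x : Fin (d + 1) → K)
    (hx : x ∈ hyper s V k) : dualP s V k ⬝ᵥ x = 0 := by
  induction hx using Submodule.span_induction with
  | mem y hy =>
    obtain ⟨j, rfl⟩ := hy
    exact dualP_dot_self s V k j
  | zero => simp
  | add y z _ _ hy hz => rw [dotProduct_add, hy, hz, add_zero]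
  | smul c y _ hy => rw [dotProduct_smul, hy, smul_zero]

theorem mem_of_dual_dot (s : Fin d → ℤ) (e : ℤ) (V : ℤ → Fin (d + 1) → K) (k : ℤ)
    (hV : bracket s e V k ≠ 0) (x : Fin (d + 1) → K) (hx : dualP s V k ⬝ᵥ x = 0) :
    x ∈ hyper s V k := by
  have hli : LinearIndependent K (Fin.cons (V (k + e)) (fun j => V (k + s j)) :
      Fin (d + 1) → Fin (d + 1) → K) :=
    Matrix.linearIndependent_rows_iff_isUnit.2
      ((Matrix.isUnit_iff_isUnit_det _).2 (isUnit_iff_ne_zero.2 hV))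
  have hx' : x ∈ Submodule.span K (Set.range (Fin.cons (V (k + e)) (fun j => V (k + s j)) :
      Fin (d + 1) → Fin (d + 1) → K)) := by
    rw [LinearIndependent.span_eq_top_of_card_eq_finrank' hli (by simp)]
    exact Submodule.mem_top
  rw [Submodule.mem_span_range_iff_exists_fun] at hx'
  obtain ⟨c, hc⟩ := hx'
  rw [Fin.sum_univ_succ] at hc
  simp only [Fin.cons_zero, Fin.cons_succ] at hc
  have hmem : ∑ j : Fin d, c j.succ • V (k + s j) ∈ hyper s V k :=
    Submodule.sum_mem _ fun j _ => Submodule.smul_mem _ _ (Submodule.subset_span ⟨j, rfl⟩)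
  have h0 : c 0 = 0 := by
    rw [← hc, dotProduct_add, dotProduct_smul, dual_dot_of_mem s V k _ hmem, dualP_dot,
      smul_eq_mul, add_zero] at hx
    exact (mul_eq_zero.1 hx).resolve_right hV
  rw [← hc, h0, zero_smul, zero_add]
  exact hmem

/-- The hyperplanes `P_{k+s_0}, …, P_{k+s_{d-1}}, P_{k+e}` have no common point. -/
def DualGood (s : Fin d → ℤ) (e : ℤ) (V : ℤ → Fin (d + 1) → K) : Prop :=
  ∀ k, (⨅ j, hyper s V (k + s j)) ⊓ hyper s V (k + e) = ⊥

theorem bracket_dual_ne (s : Fin d → ℤ) (e : ℤ) (V : ℤ → Fin (d + 1) → K)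
    (hV : ∀ k, bracket s e V k ≠ 0) (hD : DualGood s e V) (k : ℤ) :
    bracket s e (dualP s V) k ≠ 0 := by
  intro h0
  obtain ⟨x, hx0, hx⟩ := Matrix.exists_mulVec_eq_zero_iff.2 h0
  apply hx0
  have hmem : x ∈ (⊥ : Submodule K (Fin (d + 1) → K)) := by
    rw [← hD k]
    refine ⟨?_, ?_⟩
    · rw [SetLike.mem_coe, Submodule.mem_iInf]
      intro j
      exact mem_of_dual_dot s e V _ (hV _) x (congrFun hx j.succ)
    · exact mem_of_dual_dot s e V _ (hV _) x (congrFun hx 0)
  simpa using hmem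

/-- `V' k` is a nonzero vector in the intersection of the hyperplanes `P_{k+s_j}`: `V'` represents
the image of the polygon under `T_{I,I}`. -/
def IsImage (s : Fin d → ℤ) (V V' : ℤ → Fin (d + 1) → K) : Prop :=
  ∀ k, V' k ≠ 0 ∧ V' k ∈ ⨅ j, hyper s V (k + s j)

/-- Homogeneous coordinates `V` of a twisted `n`-gon in projective `d`-space, together with a linear
lift `M` of its monodromy. -/
structure TwistedPoly (K : Type*) [Field K] (d n : ℕ) where
  V : ℤ → Fin (d + 1) → K
  M : Matrix (Fin (d + 1)) (Fin (d + 1)) K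
  det_ne : M.det ≠ 0
  twist : ∀ k, V (k + n) = M *ᵥ V k

theorem det_rows_mulVec (M : Matrix (Fin (d + 1)) (Fin (d + 1)) K)
    (R : Fin (d + 1) → Fin (d + 1) → K) :
    (Matrix.of fun i => M *ᵥ R i).det = M.det * (Matrix.of R).det := by
  have : (Matrix.of fun i => M *ᵥ R i) = Matrix.of R * Mᵀ := by
    ext i j
    simp only [Matrix.of_apply, Matrix.mul_apply, Matrix.mulVec, dotProduct, Matrix.transpose_apply]
    exact Finset.sum_congr rfl fun x _ => mul_comm _ _
  rw [this, Matrix.det_mul, Matrix.det_transpose, mul_comm]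

theorem det_rows_smul (t : Fin (d + 1) → K) (R : Fin (d + 1) → Fin (d + 1) → K) :
    (Matrix.of fun i => t i • R i).det = (∏ i, t i) * (Matrix.of R).det := by
  have : (Matrix.of fun i => t i • R i) = Matrix.of fun a b => t a * (Matrix.of R) a b := by
    ext a b
    simp
  rw [this, Matrix.det_mul_column]

theorem bracket_eq (s : Fin d → ℤ) (e : ℤ) (V : ℤ → Fin (d + 1) → K) (k : ℤ) :
    bracket s e V k = (Matrix.of fun i => V (k + (Fin.cons e s : Fin (d + 1) → ℤ) i)).det := by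
  unfold bracket
  congr 1
  ext i j
  refine Fin.cases ?_ (fun b => ?_) i
  · simp
  · simp

theorem bracket_twist {n : ℕ} (X : TwistedPoly K d n) (s : Fin d → ℤ) (e : ℤ) (k : ℤ) :
    bracket s e X.V (k + n) = X.M.det * bracket s e X.V k := by
  rw [bracket_eq, bracket_eq, ← det_rows_mulVec]
  congr 1
  ext i j
  simp only [Matrix.of_apply]
  rw [← X.twist, add_right_comm]

theorem dualP_twist {n : ℕ} (X : TwistedPoly K d n) (s : Fin d → ℤ) (k : ℤ) :
    dualP s X.V (k + n) ᵥ* X.M = X.M.det • dualP s X.V k := by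
  unfold dualP
  rw [← crossP_mulVec]
  congr 2
  funext j
  rw [← X.twist, add_right_comm]

theorem bracket_dual_twist {n : ℕ} (X : TwistedPoly K d n) (s : Fin d → ℤ) (e : ℤ) (k : ℤ) :
    bracket s e (dualP s X.V) (k + n) = X.M.det ^ d * bracket s e (dualP s X.V) k := by
  have h1 : X.M.det * bracket s e (dualP s X.V) (k + n) =
      X.M.det * (X.M.det ^ d * bracket s e (dualP s X.V) k) := by
    rw [bracket_eq, bracket_eq]
    have e1 : (Matrix.of fun i => dualP s X.V (k + n + (Fin.cons e s : Fin (d + 1) → ℤ) i) ᵥ* X.M).det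
        = X.M.det * (Matrix.of fun i => dualP s X.V (k + n + (Fin.cons e s : Fin (d + 1) → ℤ) i)).det := by
      rw [← Matrix.det_transpose X.M, ← det_rows_mulVec]
      simp only [Matrix.mulVec_transpose]
    rw [← e1]
    have e2 : (Matrix.of fun i => dualP s X.V (k + n + (Fin.cons e s : Fin (d + 1) → ℤ) i) ᵥ* X.M) =
        Matrix.of fun i => (fun _ => X.M.det) i •
          dualP s X.V (k + (Fin.cons e s : Fin (d + 1) → ℤ) i) := by
      ext i j
      simp only [Matrix.of_apply]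
      rw [← dualP_twist, add_right_comm]
    rw [e2, det_rows_smul]
    simp
    ring
  exact mul_left_cancel₀ X.det_ne h1

theorem dual_dual_twist {n : ℕ} (hd : 0 < d) (X : TwistedPoly K d n) (s : Fin d → ℤ) (k : ℤ) :
    dualP s (dualP s X.V) (k + n) = X.M.det ^ (d - 1) • (X.M *ᵥ dualP s (dualP s X.V) k) := by
  have h := crossP_mulVec X.Mᵀ (fun j => dualP s X.V (k + n + s j))
  have h1 : (fun j => X.Mᵀ *ᵥ dualP s X.V (k + n + s j)) =
      fun j => (fun _ => X.M.det) j • dualP s X.V (k + s j) := by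
    funext j
    rw [Matrix.mulVec_transpose, ← dualP_twist, add_right_comm]
  rw [h1, crossP_smul, Matrix.vecMul_transpose, Matrix.det_transpose, Matrix.mulVec_smul] at h
  simp only [Finset.prod_const, Finset.card_univ, Fintype.card_fin] at h
  have h' : X.M.det • dualP s (dualP s X.V) (k + n) =
      X.M.det • (X.M.det ^ (d - 1) • (X.M *ᵥ dualP s (dualP s X.V) k)) := by
    rw [smul_smul, ← pow_succ', Nat.sub_add_cancel hd]
    exact h.symm
  exact smul_right_injective _ X.det_ne h'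

/-- Effect of a rescaling of the lifts on the bracket. -/
theorem bracket_scale (s : Fin d → ℤ) (e : ℤ) (U V' : ℤ → Fin (d + 1) → K) (t : ℤ → K)
    (ht : ∀ k, V' k = t k • U k) (k : ℤ) :
    bracket s e V' k = (∏ i, t (k + (Fin.cons e s : Fin (d + 1) → ℤ) i)) * bracket s e U k := by
  rw [bracket_eq, bracket_eq, ← det_rows_smul]
  simp only [ht]

theorem inj_of_bracket (s : Fin d → ℤ) (e : ℤ) (V : ℤ → Fin (d + 1) → K) (k : ℤ)
    (h : bracket s e V k ≠ 0) : Function.Injective (Fin.cons e s : Fin (d + 1) → ℤ) := by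
  intro i j hij
  by_contra hne
  apply h
  rw [bracket_eq]
  apply Matrix.det_zero_of_row_eq hne
  funext x
  simp only [Matrix.of_apply, hij]

/-- Product over the symmetric set, rewritten with the reflection. -/
theorem prodAP_reflect (s : Fin d → ℤ) (e c : ℤ)
    (hi : Function.Injective (Fin.cons e s : Fin (d + 1) → ℤ)) (hs : SymmExt s e c) (g : ℤ) (N : ℕ)
    (t : ℤ → K) (r : ℤ) :
    prodAP g N (fun k => ∏ i, t (k + (Fin.cons e s : Fin (d + 1) → ℤ) i)) (r - c) =
      prodAP g N t (r - e) * ∏ j, prodAP g N t (r - s j) := by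
  obtain ⟨σ, hσ⟩ := exists_perm s e c hi hs
  have h1 : prodAP g N (fun k => ∏ i, t (k + (Fin.cons e s : Fin (d + 1) → ℤ) i)) (r - c) =
      ∏ i, prodAP g N t (r - (Fin.cons e s : Fin (d + 1) → ℤ) (σ i)) := by
    unfold prodAP
    rw [Finset.prod_comm]
    refine Finset.prod_congr rfl fun i _ => Finset.prod_congr rfl fun x _ => ?_
    rw [← hσ i]
    congr 1
    ring
  rw [h1, Equiv.prod_comp σ fun i => prodAP g N t (r - (Fin.cons e s : Fin (d + 1) → ℤ) i),
    Fin.prod_univ_succ]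
  simp

theorem prodInt_scale (s : Fin d → ℤ) (e c e' c' : ℤ)
    (hi : Function.Injective (Fin.cons e s : Fin (d + 1) → ℤ))
    (hi' : Function.Injective (Fin.cons e' s : Fin (d + 1) → ℤ))
    (hs : SymmExt s e c) (hs' : SymmExt s e' c') (g k₀ : ℤ) (N : ℕ) (hk : e - e' = g * k₀)
    (U V' : ℤ → Fin (d + 1) → K) (t : ℤ → K) (ht0 : ∀ k, t k ≠ 0) (τ : K) (hτ : τ ≠ 0)
    (hτt : ∀ k, t (k + g * N) = τ * t k) (ht : ∀ k, V' k = t k • U k) (r : ℤ) :
    prodInt s e c e' c' g N V' r = τ ^ (-k₀) * prodInt s e c e' c' g N U r := by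
  have e1 : prodAP g N (bracket s e V') (r - c) =
      prodAP g N t (r - e) * (∏ j, prodAP g N t (r - s j)) *
        prodAP g N (bracket s e U) (r - c) := by
    rw [← prodAP_reflect s e c hi hs, ← prodAP_mul]
    congr 1
    funext k
    exact bracket_scale s e U V' t ht k
  have e2 : prodAP g N (bracket s e' V') (r - c') =
      (τ ^ k₀ * prodAP g N t (r - e)) * (∏ j, prodAP g N t (r - s j)) *
        prodAP g N (bracket s e' U) (r - c') := by
    rw [← prodAP_shift g N t ht0 τ hτ hτt]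
    have : r - e + g * k₀ = r - e' := by linear_combination -hk
    rw [this, ← prodAP_reflect s e' c' hi' hs', ← prodAP_mul]
    congr 1
    funext k
    exact bracket_scale s e' U V' t ht k
  have p1 : prodAP g N t (r - e) ≠ 0 := prodAP_ne _ _ _ ht0 _
  have p2 : (∏ j, prodAP g N t (r - s j)) ≠ 0 :=
    Finset.prod_ne_zero_iff.2 fun j _ => prodAP_ne _ _ _ ht0 _
  have p3 : τ ^ k₀ ≠ 0 := zpow_ne_zero _ hτ
  unfold prodInt
  rw [e1, e2, _root_.zpow_neg]
  by_cases h0 : prodAP g N (bracket s e' U) (r - c') = 0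
  · rw [h0]; simp
  · field_simp

/-- The arithmetic identity behind the exact invariance. -/
theorem arith (s : Fin d → ℤ) (e c : ℤ)
    (hi : Function.Injective (Fin.cons e s : Fin (d + 1) → ℤ)) (hs : SymmExt s e c) :
    ((d : ℤ) + 1) * c = 2 * (e + ∑ j, s j) := by
  obtain ⟨σ, hσ⟩ := exists_perm s e c hi hs
  have h1 : ∑ i, (c - (Fin.cons e s : Fin (d + 1) → ℤ) i) =
      ∑ i, (Fin.cons e s : Fin (d + 1) → ℤ) i := by
    rw [← Equiv.sum_comp σ (Fin.cons e s : Fin (d + 1) → ℤ)]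
    exact Finset.sum_congr rfl fun i _ => hσ i
  rw [Finset.sum_sub_distrib] at h1
  have h2 : ∑ i, (Fin.cons e s : Fin (d + 1) → ℤ) i = e + ∑ j, s j := by
    rw [Fin.sum_univ_succ]
    simp
  rw [h2] at h1
  simp at h1
  linarith

/-- `X` and `Y` represent the same projective class of twisted polygons; `m` is the ratio of the
two linear lifts of the monodromy. -/
def ProjEquiv {n : ℕ} (m : K) (X Y : TwistedPoly K d n) : Prop :=
  ∃ (g : Matrix (Fin (d + 1)) (Fin (d + 1)) K) (t : ℤ → K), g.det ≠ 0 ∧ m ≠ 0 ∧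
    (∀ k, t k ≠ 0 ∧ t (k + n) = m * t k) ∧ ∀ k, Y.V k = t k • (g *ᵥ X.V k)

theorem prodInt_class {n : ℕ} (s : Fin d → ℤ) (e c e' c' : ℤ)
    (hi : Function.Injective (Fin.cons e s : Fin (d + 1) → ℤ))
    (hi' : Function.Injective (Fin.cons e' s : Fin (d + 1) → ℤ))
    (hs : SymmExt s e c) (hs' : SymmExt s e' c') (g k₀ : ℤ) (N : ℕ) (hn : (n : ℤ) = g * N)
    (hk : e - e' = g * k₀) (m : K) (X Y : TwistedPoly K d n) (h : ProjEquiv m X Y) (r : ℤ) :
    prodInt s e c e' c' g N Y.V r = m ^ (-k₀) * prodInt s e c e' c' g N X.V r := by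
  obtain ⟨A, t, hA, hm, ht, hY⟩ := h
  rw [prodInt_scale s e c e' c' hi hi' hs hs' g k₀ N hk (fun k => A *ᵥ X.V k) Y.V t
    (fun k => (ht k).1) m hm (fun k => by rw [← hn]; exact (ht k).2) hY r]
  congr 1
  have hb : ∀ f : ℤ, bracket s f (fun k => A *ᵥ X.V k) = fun k => A.det * bracket s f X.V k := by
    intro f
    funext k
    rw [bracket_eq, bracket_eq, ← det_rows_mulVec]
  unfold prodInt
  rw [hb, hb, prodAP_mul, prodAP_mul, prodAP_const, prodAP_const]
  rw [mul_div_mul_left _ _ (pow_ne_zero _ hA)]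

theorem prodInt_image {n : ℕ} (hd : 0 < d) (hn0 : 0 < n) (s : Fin d → ℤ) (e c e' c' : ℤ)
    (hs : SymmExt s e c) (hs' : SymmExt s e' c') (g m k₀ : ℤ) (N : ℕ) (hn : (n : ℤ) = g * N)
    (hk : e - e' = g * k₀) (hm : (c' - e') - (c - e) = g * m) (X Y : TwistedPoly K d n)
    (hM : Y.M = X.M) (hX : ∀ k, bracket s e X.V k ≠ 0) (hX' : ∀ k, bracket s e' X.V k ≠ 0)
    (hD : DualGood s e X.V) (hY : ∀ k, bracket s e Y.V k ≠ 0) (hI : IsImage s X.V Y.V) (r : ℤ) :
    prodInt s e c e' c' g N Y.V r = prodInt s e c e' c' g N X.V (r + 2 * (c - e)) := by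
  have hi := inj_of_bracket s e X.V 0 (hX 0)
  have hi' := inj_of_bracket s e' X.V 0 (hX' 0)
  have hXne : ∀ k, X.V k ≠ 0 := by
    intro k h0
    apply hX (k - e)
    apply Matrix.det_eq_zero_of_row_eq_zero 0
    intro j
    simp [h0]
  have hW := bracket_dual_ne s e X.V hX hD
  have hWne : ∀ k, dualP s X.V k ≠ 0 := by
    intro k h0
    apply hW (k - e)
    apply Matrix.det_eq_zero_of_row_eq_zero 0
    intro j
    simp [h0]
  -- the scales
  have hsc : ∀ k, ∃ t : K, t ≠ 0 ∧ Y.V k = t • dualP s (dualP s X.V) k := by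
    intro k
    obtain ⟨h0, h1⟩ := hI k
    rw [Submodule.mem_iInf] at h1
    obtain ⟨a, ha⟩ := crossP_of_ann (fun j => dualP s X.V (k + s j)) (Y.V k) h0
      (fun j => dual_dot_of_mem s X.V _ _ (h1 j))
    have ha' : dualP s (dualP s X.V) k = a • Y.V k := ha
    have ha0 : a ≠ 0 := by
      rintro rfl
      rw [zero_smul] at ha'
      apply hW k
      rw [← dualP_dot, ha', zero_dotProduct]
    exact ⟨a⁻¹, inv_ne_zero ha0, by rw [ha', smul_smul, inv_mul_cancel₀ ha0, one_smul]⟩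
  choose t ht0 ht using hsc
  have hδ : X.M.det ≠ 0 := X.det_ne
  set δ := X.M.det with hδdef
  have htn : ∀ k, t (k + n) * δ ^ (d - 1) = t k := by
    intro k
    have e1 := Y.twist k
    rw [hM, ht (k + n), ht k, dual_dual_twist hd, smul_smul, Matrix.mulVec_smul] at e1
    have hne : X.M *ᵥ dualP s (dualP s X.V) k ≠ 0 := by
      intro h0
      have h2 := Y.twist k
      rw [hM, ht k, Matrix.mulVec_smul, h0, smul_zero] at h2
      exact (hI (k + n)).1 h2
    have e2 : (t (k + n) * δ ^ (d - 1) - t k) • (X.M *ᵥ dualP s (dualP s X.V) k) = 0 := by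
      rw [sub_smul, e1, sub_self]
    exact sub_eq_zero.1 ((smul_eq_zero.1 e2).resolve_right hne)
  have hτ : (δ ^ (d - 1))⁻¹ ≠ 0 := inv_ne_zero (pow_ne_zero _ hδ)
  have hstep1 := prodInt_scale s e c e' c' hi hi' hs hs' g k₀ N hk (dualP s (dualP s X.V)) Y.V t
    ht0 (δ ^ (d - 1))⁻¹ hτ (fun k => by
      rw [← hn, ← htn k]
      field_simp) ht r
  obtain ⟨η, hη, H⟩ := prodInt_dual (K := K) s e c e' c' hi hi' hs hs' g m N hm
  obtain ⟨hW', H1⟩ := H X.V δ hδ hXne hX hX' (fun k => by rw [← hn]; exact bracket_twist X s e' k) hW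
  have hWW : ∀ k, bracket s e (dualP s (dualP s X.V)) k ≠ 0 := by
    intro k h0
    apply hY k
    rw [bracket_scale s e (dualP s (dualP s X.V)) Y.V t ht, h0, mul_zero]
  obtain ⟨_, H2⟩ := H (dualP s X.V) (δ ^ d) (pow_ne_zero _ hδ) hWne hW hW'
    (fun k => by rw [← hn]; exact bracket_dual_twist X s e' k) hWW
  rw [hstep1, H2 r, H1 (r + (c - e))]
  -- exponent bookkeeping
  have a1 := arith s e c hi hs
  have a2 := arith s e' c' hi' hs'
  have hg : g ≠ 0 := by
    rintro rfl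
    rw [zero_mul] at hn
    omega
  have hkm : ((d : ℤ) - 1) * k₀ = ((d : ℤ) + 1) * m := by
    have : g * (((d : ℤ) - 1) * k₀) = g * (((d : ℤ) + 1) * m) := by
      linear_combination (-((d : ℤ) - 1)) * hk + ((d : ℤ) + 1) * hm + a1 - a2
    exact mul_left_cancel₀ hg this
  have b1 : ((δ ^ (d - 1))⁻¹) ^ (-k₀) = δ ^ (((d : ℤ) - 1) * k₀) := by
    rw [_root_.inv_zpow, _root_.zpow_neg, inv_inv, ← zpow_natCast, ← _root_.zpow_mul]
    congr 1
    push_cast [Nat.cast_sub hd]
    ring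
  have b2 : (δ ^ d) ^ (-m) = δ ^ (-((d : ℤ) * m)) := by
    rw [← zpow_natCast, ← _root_.zpow_mul]
    congr 1
    ring
  have b3 : δ ^ (((d : ℤ) + 1) * m) * (δ ^ (-((d : ℤ) * m)) * δ ^ (-m)) = 1 := by
    rw [← zpow_add₀ hδ, ← zpow_add₀ hδ]
    have : ((d : ℤ) + 1) * m + (-((d : ℤ) * m) + -m) = 0 := by ring
    rw [this, zpow_zero]
  have b4 : r + (c - e) + (c - e) = r + 2 * (c - e) := by ring
  rw [b1, b2, hkm, b4]
  calc δ ^ (((d : ℤ) + 1) * m) * (η * δ ^ (-((d : ℤ) * m)) * (η * δ ^ (-m) *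
        prodInt s e c e' c' g N X.V (r + 2 * (c - e))))
      = η ^ 2 * (δ ^ (((d : ℤ) + 1) * m) * (δ ^ (-((d : ℤ) * m)) * δ ^ (-m))) *
        prodInt s e c e' c' g N X.V (r + 2 * (c - e)) := by ring
    _ = prodInt s e c e' c' g N X.V (r + 2 * (c - e)) := by rw [hη, b3]; ring

/-- **Product-form integrals of `T_{I,I}` in every dimension.** -/
theorem result (d n : ℕ) (hd : 0 < d) (hn : 0 < n) (s : Fin d → ℤ) (e c e' c' : ℤ)
    (hinj : Function.Injective (Fin.cons e s : Fin (d + 1) → ℤ))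
    (hinj' : Function.Injective (Fin.cons e' s : Fin (d + 1) → ℤ))
    (hs : SymmExt s e c) (hs' : SymmExt s e' c')
    (g k₀ : ℤ) (N : ℕ) (hN : (n : ℤ) = g * N) (hk : e - e' = g * k₀)
    (hm : g ∣ (c' - e') - (c - e)) :
    -- the functions depend only on the projective class, up to a power of the ratio `m` of the
    -- two lifts of the monodromy
    (∀ (X Y : TwistedPoly K d n) (m : K), ProjEquiv m X Y → ∀ r,
      prodInt s e c e' c' g N Y.V r = m ^ (-k₀) * prodInt s e c e' c' g N X.V r) ∧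
    -- the map `T_{I,I}` shifts the index by `2 (c - e)`
    (∀ X Y : TwistedPoly K d n, Y.M = X.M → (∀ k, bracket s e X.V k ≠ 0) →
      (∀ k, bracket s e' X.V k ≠ 0) → DualGood s e X.V → (∀ k, bracket s e Y.V k ≠ 0) →
      IsImage s X.V Y.V → ∀ r,
      prodInt s e c e' c' g N Y.V r = prodInt s e c e' c' g N X.V (r + 2 * (c - e))) := by
  obtain ⟨m, hm⟩ := hm
  refine ⟨?_, ?_⟩
  · intro X Y μ h r
    exact prodInt_class s e c e' c' hinj hinj' hs hs' g k₀ N hN hk μ X Y h r
  · intro X Y hM hX hX' hD hY hI r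
    exact prodInt_image hd hn s e c e' c' hs hs' g m k₀ N hN hk hm X Y hM hX hX' hD hY hI r

/-! ### The functions are not functions of the monodromy -/

/-- A twisted 2-gon with diagonal monodromy. -/
def diagPoly (l z : Fin (d + 1) → ℚ) (hl : ∀ i, l i ≠ 0) : TwistedPoly ℚ d 2 where
  V := fun k i => l i ^ (k / 2) * (if k % 2 = 0 then 1 else z i)
  M := Matrix.diagonal l
  det_ne := by
    rw [Matrix.det_diagonal]
    exact Finset.prod_ne_zero_iff.2 fun i _ => hl i
  twist := by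
    intro k
    funext i
    rw [Matrix.mulVec_diagonal]
    have h1 : (k + ((2 : ℕ) : ℤ)) / 2 = k / 2 + 1 := by omega
    have h2 : (k + ((2 : ℕ) : ℤ)) % 2 = k % 2 := by omega
    rw [h1, h2, zpow_add_one₀ (hl i)]
    ring

/-- Explicit determinant of a 4 × 4 matrix with given rows. -/
def det4 (x y z u : Fin 4 → ℚ) : ℚ :=
  x 0 * (y 1 * (z 2 * u 3 - z 3 * u 2) - y 2 * (z 1 * u 3 - z 3 * u 1) + y 3 * (z 1 * u 2 - z 2 * u 1))
  - x 1 * (y 0 * (z 2 * u 3 - z 3 * u 2) - y 2 * (z 0 * u 3 - z 3 * u 0) + y 3 * (z 0 * u 2 - z 2 * u 0))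
  + x 2 * (y 0 * (z 1 * u 3 - z 3 * u 1) - y 1 * (z 0 * u 3 - z 3 * u 0) + y 3 * (z 0 * u 1 - z 1 * u 0))
  - x 3 * (y 0 * (z 1 * u 2 - z 2 * u 1) - y 1 * (z 0 * u 2 - z 2 * u 0) + y 2 * (z 0 * u 1 - z 1 * u 0))

theorem bracket_three (s0 s1 s2 e : ℤ) (V : ℤ → Fin 4 → ℚ) (k : ℤ) :
    bracket (d := 3) ![s0, s1, s2] e V k = det4 (V (k + e)) (V (k + s0)) (V (k + s1)) (V (k + s2)) := by
  have h : (Fin.cons (V (k + e)) (fun j => V (k + ![s0, s1, s2] j)) : Fin 4 → Fin 4 → ℚ) =
      ![V (k + e), V (k + s0), V (k + s1), V (k + s2)] := by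
    funext i
    fin_cases i <;> rfl
  unfold bracket det4
  rw [h]
  simp [Matrix.det_succ_row_zero, Fin.sum_univ_succ, Fin.succAbove]
  ring

theorem nonconstant_three :
    ∃ X Y : TwistedPoly ℚ 3 2, X.M = Y.M ∧
      prodInt ![0, 1, 3] 2 3 4 4 1 2 X.V 0 ≠ prodInt ![0, 1, 3] 2 3 4 4 1 2 Y.V 0 := by
  refine ⟨diagPoly ![1, 2, 3, 5] ![1, 2, 3, 7] (by intro i; fin_cases i <;> simp),
    diagPoly ![1, 2, 3, 5] ![1, 2, 5, 7] (by intro i; fin_cases i <;> simp), rfl, ?_⟩
  simp only [prodInt, prodAP, Finset.prod_range_succ, Finset.prod_range_zero, one_mul,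
    bracket_three]
  have h2 : ∀ x y z u : ℚ, (![x, y, z, u] : Fin (3 + 1) → ℚ) 2 = z := fun _ _ _ _ => rfl
  have h3 : ∀ x y z u : ℚ, (![x, y, z, u] : Fin (3 + 1) → ℚ) 3 = u := fun _ _ _ _ => rfl
  norm_num [det4, diagPoly, h2, h3]

/-- 5 × 5 determinant by expansion along the first row. -/
def det5 (x y z u w : Fin 5 → ℚ) : ℚ :=
  x 0 * det4 ![y 1, y 2, y 3, y 4] ![z 1, z 2, z 3, z 4] ![u 1, u 2, u 3, u 4] ![w 1, w 2, w 3, w 4]
  - x 1 * det4 ![y 0, y 2, y 3, y 4] ![z 0, z 2, z 3, z 4] ![u 0, u 2, u 3, u 4] ![w 0, w 2, w 3, w 4]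
  + x 2 * det4 ![y 0, y 1, y 3, y 4] ![z 0, z 1, z 3, z 4] ![u 0, u 1, u 3, u 4] ![w 0, w 1, w 3, w 4]
  - x 3 * det4 ![y 0, y 1, y 2, y 4] ![z 0, z 1, z 2, z 4] ![u 0, u 1, u 2, u 4] ![w 0, w 1, w 2, w 4]
  + x 4 * det4 ![y 0, y 1, y 2, y 3] ![z 0, z 1, z 2, z 3] ![u 0, u 1, u 2, u 3] ![w 0, w 1, w 2, w 3]

theorem bracket_four (s0 s1 s2 s3 e : ℤ) (V : ℤ → Fin 5 → ℚ) (k : ℤ) :
    bracket (d := 4) ![s0, s1, s2, s3] e V k =
      det5 (V (k + e)) (V (k + s0)) (V (k + s1)) (V (k + s2)) (V (k + s3)) := by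
  have h : (Fin.cons (V (k + e)) (fun j => V (k + ![s0, s1, s2, s3] j)) : Fin 5 → Fin 5 → ℚ) =
      ![V (k + e), V (k + s0), V (k + s1), V (k + s2), V (k + s3)] := by
    funext i
    fin_cases i <;> rfl
  unfold bracket det5 det4
  rw [h]
  simp [Matrix.det_succ_row_zero, Fin.sum_univ_succ, Fin.succAbove]
  ring

theorem nonconstant_four :
    ∃ X Y : TwistedPoly ℚ 4 2, X.M = Y.M ∧
      prodInt ![0, 1, 2, 4] (-2) 2 3 4 1 2 X.V 0 ≠ prodInt ![0, 1, 2, 4] (-2) 2 3 4 1 2 Y.V 0 := by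
  refine ⟨diagPoly ![1, 2, 3, 5, 7] ![1, 2, 3, 7, 4] (by intro i; fin_cases i <;> simp),
    diagPoly ![1, 2, 3, 5, 7] ![1, 2, 5, 7, 4] (by intro i; fin_cases i <;> simp), rfl, ?_⟩
  simp only [prodInt, prodAP, Finset.prod_range_succ, Finset.prod_range_zero, one_mul,
    bracket_four]
  have h2 : ∀ x y z u v : ℚ, (![x, y, z, u, v] : Fin (4 + 1) → ℚ) 2 = z := fun _ _ _ _ _ => rfl
  have h3 : ∀ x y z u v : ℚ, (![x, y, z, u, v] : Fin (4 + 1) → ℚ) 3 = u := fun _ _ _ _ _ => rfl
  have h4 : ∀ x y z u v : ℚ, (![x, y, z, u, v] : Fin (4 + 1) → ℚ) 4 = v := fun _ _ _ _ _ => rfl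
  have k2 : ∀ x y z u : ℚ, (![x, y, z, u] : Fin 4 → ℚ) 2 = z := fun _ _ _ _ => rfl
  have k3 : ∀ x y z u : ℚ, (![x, y, z, u] : Fin 4 → ℚ) 3 = u := fun _ _ _ _ => rfl
  norm_num [det5, det4, diagPoly, h2, h3, h4, k2, k3]

end Pool.Agent.Results.MP_62a5ad_mp.ProductIntegrals
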