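import Mathlib

open Matrix Module

namespace Pool.Agent.Results.MP_62a5ad_mp.SpectralLax

variable {K : Type*} [Field K]

/-- generalized cross product in `K⁴` -/
def cr (x y z : Fin 4 → K) : Fin 4 → K :=
  ![ x 1 * (y 2 * z 3 - y 3 * z 2) - x 2 * (y 1 * z 3 - y 3 * z 1) + x 3 * (y 1 * z 2 - y 2 * z 1),
     -(x 0 * (y 2 * z 3 - y 3 * z 2) - x 2 * (y 0 * z 3 - y 3 * z 0) + x 3 * (y 0 * z 2 - y 2 * z 0)),
     x 0 * (y 1 * z 3 - y 3 * z 1) - x 1 * (y 0 * z 3 - y 3 * z 0) + x 3 * (y 0 * z 1 - y 1 * z 0),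
     -(x 0 * (y 1 * z 2 - y 2 * z 1) - x 1 * (y 0 * z 2 - y 2 * z 0) + x 2 * (y 0 * z 1 - y 1 * z 0)) ]

theorem cr_dot (x y z u : Fin 4 → K) : cr x y z ⬝ᵥ u = (of ![u, x, y, z]).det := by
  simp [cr, dotProduct, Matrix.det_succ_row_zero, Fin.sum_univ_succ, Fin.succAbove]
  ring

theorem cr_dot_1 (x y z : Fin 4 → K) : cr x y z ⬝ᵥ x = 0 := by
  simp only [cr, dotProduct, Fin.sum_univ_four, cons_val_zero, cons_val_one, cons_val]
  ring

theorem cr_dot_2 (x y z : Fin 4 → K) : cr x y z ⬝ᵥ y = 0 := by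
  simp only [cr, dotProduct, Fin.sum_univ_four, cons_val_zero, cons_val_one, cons_val]
  ring

theorem cr_dot_3 (x y z : Fin 4 → K) : cr x y z ⬝ᵥ z = 0 := by
  simp only [cr, dotProduct, Fin.sum_univ_four, cons_val_zero, cons_val_one, cons_val]
  ring

theorem five_a (ψ v x y x' y' : Fin 4 → K) (h : ψ ⬝ᵥ v = 0) :
    (ψ ⬝ᵥ y) * (cr v x' y' ⬝ᵥ x) - (ψ ⬝ᵥ x) * (cr v x' y' ⬝ᵥ y) - (ψ ⬝ᵥ y') * (cr x v y ⬝ᵥ x')
      + (ψ ⬝ᵥ x') * (cr x v y ⬝ᵥ y') = 0 := by
  have key : (ψ ⬝ᵥ y) * (cr v x' y' ⬝ᵥ x) - (ψ ⬝ᵥ x) * (cr v x' y' ⬝ᵥ y)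
      - (ψ ⬝ᵥ y') * (cr x v y ⬝ᵥ x')
      + (ψ ⬝ᵥ x') * (cr x v y ⬝ᵥ y') = - (ψ ⬝ᵥ v) * (cr x y x' ⬝ᵥ y') := by
    simp only [cr, dotProduct, Fin.sum_univ_four, cons_val_zero, cons_val_one, cons_val]
    ring
  rw [key, h]; ring

theorem five_b (ψ v x u y z : Fin 4 → K) (h : ψ ⬝ᵥ v = 0) :
    -(ψ ⬝ᵥ u) * (cr y v z ⬝ᵥ x) + (ψ ⬝ᵥ x) * (cr y v z ⬝ᵥ u) + (ψ ⬝ᵥ z) * (cr x u v ⬝ᵥ y)
      - (ψ ⬝ᵥ y) * (cr x u v ⬝ᵥ z) = 0 := by
  have key : -(ψ ⬝ᵥ u) * (cr y v z ⬝ᵥ x) + (ψ ⬝ᵥ x) * (cr y v z ⬝ᵥ u) + (ψ ⬝ᵥ z) * (cr x u v ⬝ᵥ y)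
      - (ψ ⬝ᵥ y) * (cr x u v ⬝ᵥ z) = - (ψ ⬝ᵥ v) * (cr x u y ⬝ᵥ z) := by
    simp only [cr, dotProduct, Fin.sum_univ_four, cons_val_zero, cons_val_one, cons_val]
    ring
  rw [key, h]; ring

theorem five_c (ψ v x u y z : Fin 4 → K) (h : ψ ⬝ᵥ v = 0) :
    -(ψ ⬝ᵥ u) * (cr v y z ⬝ᵥ x) + (ψ ⬝ᵥ x) * (cr v y z ⬝ᵥ u) - (ψ ⬝ᵥ z) * (cr x u v ⬝ᵥ y)
      + (ψ ⬝ᵥ y) * (cr x u v ⬝ᵥ z) = 0 := by
  have key : -(ψ ⬝ᵥ u) * (cr v y z ⬝ᵥ x) + (ψ ⬝ᵥ x) * (cr v y z ⬝ᵥ u)
      - (ψ ⬝ᵥ z) * (cr x u v ⬝ᵥ y)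
      + (ψ ⬝ᵥ y) * (cr x u v ⬝ᵥ z) = (ψ ⬝ᵥ v) * (cr x u y ⬝ᵥ z) := by
    simp only [cr, dotProduct, Fin.sum_univ_four, cons_val_zero, cons_val_one, cons_val]
    ring
  rw [key, h]; ring

/-- A Floquet flex of `V`: a sequence of covectors `ψ k` with `ψ k (V k) = 0` which is skew, with
weights `p, r, p r`, along the edges `(k, k+a)`, `(k, k+b)`, `(k, k+a+b)`. -/
def IsFlex (a b : ℤ) (p r : K) (V ψ : ℤ → Fin 4 → K) : Prop :=
  ∀ k, ψ k ⬝ᵥ V k = 0 ∧
    ψ k ⬝ᵥ V (k + a) + p * (ψ (k + a) ⬝ᵥ V k) = 0 ∧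
    ψ k ⬝ᵥ V (k + b) + r * (ψ (k + b) ⬝ᵥ V k) = 0 ∧
    ψ k ⬝ᵥ V (k + (a + b)) + p * r * (ψ (k + (a + b)) ⬝ᵥ V k) = 0

theorem isFlex_zero (a b : ℤ) (p r : K) (V : ℤ → Fin 4 → K) : IsFlex a b p r V 0 := by
  intro k
  simp

theorem isFlex_add {a b : ℤ} {p r : K} {V x y : ℤ → Fin 4 → K} (hx : IsFlex a b p r V x)
    (hy : IsFlex a b p r V y) : IsFlex a b p r V (x + y) := by
  intro k
  obtain ⟨h1, h2, h3, h4⟩ := hx k
  obtain ⟨g1, g2, g3, g4⟩ := hy k
  simp only [Pi.add_apply, add_dotProduct]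
  refine ⟨?_, ?_, ?_, ?_⟩
  · linear_combination h1 + g1
  · linear_combination h2 + g2
  · linear_combination h3 + g3
  · linear_combination h4 + g4

theorem isFlex_smul {a b : ℤ} {p r : K} {V : ℤ → Fin 4 → K} (c : K) {x : ℤ → Fin 4 → K}
    (hx : IsFlex a b p r V x) : IsFlex a b p r V (c • x) := by
  intro k
  obtain ⟨h1, h2, h3, h4⟩ := hx k
  simp only [Pi.smul_apply, smul_dotProduct, smul_eq_mul]
  refine ⟨?_, ?_, ?_, ?_⟩
  · linear_combination c * h1
  · linear_combination c * h2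
  · linear_combination c * h3
  · linear_combination c * h4

/-- The space of Floquet flexes. -/
def flexes (a b : ℤ) (p r : K) (V : ℤ → Fin 4 → K) : Submodule K (ℤ → Fin 4 → K) where
  carrier := {ψ | IsFlex a b p r V ψ}
  zero_mem' := isFlex_zero a b p r V
  add_mem' := isFlex_add
  smul_mem' := isFlex_smul

/-- The polygon of planes, in dual coordinates. -/
def dualPoly (a b : ℤ) (V : ℤ → Fin 4 → K) : ℤ → Fin 4 → K :=
  fun k => cr (V k) (V (k + a)) (V (k + (a + b)))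

/-- The half-step on flexes. -/
def halfFun (a b : ℤ) (p r : K) (V : ℤ → Fin 4 → K) : (ℤ → Fin 4 → K) →ₗ[K] (ℤ → Fin 4 → K) where
  toFun ψ := fun k => (p * (ψ (k + a) ⬝ᵥ V (k + (a + b)))) • V k
    + (p * r * (ψ (k + (a + b)) ⬝ᵥ V k)) • V (k + a) + (ψ k ⬝ᵥ V (k + a)) • V (k + (a + b))
  map_add' := by
    intro x y
    funext k
    simp only [Pi.add_apply, add_dotProduct, mul_add, add_smul]
    abel
  map_smul' := by
    intro c x
    funext k i
    simp only [Pi.smul_apply, smul_dotProduct, smul_eq_mul, Pi.add_apply, RingHom.id_apply]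
    ring

theorem halfFun_mem (a b : ℤ) (p r : K) (V : ℤ → Fin 4 → K) (ψ : ℤ → Fin 4 → K)
    (hψ : ψ ∈ flexes a b p r V) : halfFun a b p r V ψ ∈ flexes a b p r (dualPoly a b V) := by
  intro k
  have ea : k + (a + b) + a = k + a + (a + b) := by ring
  have eb : k + b + a = k + (a + b) := by ring
  have ec : k + a + b = k + (a + b) := by ring
  have ed : k + (a + b) + b = k + b + (a + b) := by ring
  refine ⟨?_, ?_, ?_, ?_⟩
  · simp only [halfFun, dualPoly, LinearMap.coe_mk, AddHom.coe_mk, add_dotProduct, smul_dotProduct,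
      smul_eq_mul]
    rw [dotProduct_comm (V k), dotProduct_comm (V (k + a)), dotProduct_comm (V (k + (a + b))),
      cr_dot_1, cr_dot_2, cr_dot_3]
    ring
  · -- a-type
    have h0 := (hψ (k + a)).1
    have h1 := (hψ k).2.1
    have h2 := (hψ (k + a)).2.2.2
    have F := five_a (ψ (k + a)) (V (k + a)) (V k) (V (k + (a + b))) (V (k + a + a))
      (V (k + a + (a + b))) h0
    simp only [halfFun, dualPoly, LinearMap.coe_mk, AddHom.coe_mk, add_dotProduct, smul_dotProduct,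
      smul_eq_mul]
    rw [dotProduct_comm (V k) (cr _ _ _), dotProduct_comm (V (k + a)) (cr _ _ _),
      dotProduct_comm (V (k + (a + b))) (cr _ _ _),
      dotProduct_comm (V (k + a)) (cr _ _ _), dotProduct_comm (V (k + a + a)) (cr _ _ _),
      dotProduct_comm (V (k + a + (a + b))) (cr _ _ _), cr_dot_1, cr_dot_2]
    linear_combination p * F + (cr (V (k + a)) (V (k + a + a)) (V (k + a + (a + b))) ⬝ᵥ V (k + (a + b))) * h1 + p * (cr (V k) (V (k + a)) (V (k + (a + b))) ⬝ᵥ V (k + a + a)) * h2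
  · -- b-type
    have h0 := (hψ (k + (a + b))).1
    have h1 := (hψ (k + a)).2.2.1
    have h2 := (hψ (k + b)).2.1
    have h3 := (hψ (k + (a + b))).2.2.1
    rw [ec] at h1
    rw [eb] at h2
    rw [ed] at h3
    have F := five_b (ψ (k + (a + b))) (V (k + (a + b))) (V k) (V (k + a)) (V (k + b))
      (V (k + b + (a + b))) h0
    simp only [halfFun, dualPoly, LinearMap.coe_mk, AddHom.coe_mk, add_dotProduct, smul_dotProduct,
      smul_eq_mul, eb]
    rw [dotProduct_comm (V k) (cr _ _ _), dotProduct_comm (V (k + a)) (cr _ _ _),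
      dotProduct_comm (V (k + (a + b))) (cr _ _ _),
      dotProduct_comm (V (k + b)) (cr _ _ _), dotProduct_comm (V (k + (a + b))) (cr _ _ _),
      dotProduct_comm (V (k + b + (a + b))) (cr _ _ _), cr_dot_3, cr_dot_2]
    linear_combination p * r * F + p * (cr (V (k + b)) (V (k + (a + b))) (V (k + b + (a + b))) ⬝ᵥ V k) * h1 + r * (cr (V k) (V (k + a)) (V (k + (a + b))) ⬝ᵥ V (k + b + (a + b))) * h2
  · -- c-type
    have h0 := (hψ (k + (a + b))).1
    have h1 := (hψ (k + a)).2.2.1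
    have h2 := (hψ (k + (a + b))).2.2.2
    rw [ec] at h1
    have F := five_c (ψ (k + (a + b))) (V (k + (a + b))) (V k) (V (k + a)) (V (k + (a + b) + a))
      (V (k + (a + b) + (a + b))) h0
    simp only [halfFun, dualPoly, LinearMap.coe_mk, AddHom.coe_mk, add_dotProduct, smul_dotProduct,
      smul_eq_mul]
    rw [dotProduct_comm (V k) (cr _ _ _), dotProduct_comm (V (k + a)) (cr _ _ _),
      dotProduct_comm (V (k + (a + b))) (cr _ _ _),
      dotProduct_comm (V (k + (a + b))) (cr _ _ _), dotProduct_comm (V (k + (a + b) + a)) (cr _ _ _),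
      dotProduct_comm (V (k + (a + b) + (a + b))) (cr _ _ _), cr_dot_1, cr_dot_3]
    linear_combination p * r * F + p * (cr (V (k + (a + b))) (V (k + (a + b) + a)) (V (k + (a + b) + (a + b))) ⬝ᵥ V k) * h1 + p * r * (cr (V k) (V (k + a)) (V (k + (a + b))) ⬝ᵥ V (k + (a + b) + a)) * h2

/-- Nondegeneracy: four neighbours are always linearly independent. -/
def Nondeg (a b : ℤ) (V : ℤ → Fin 4 → K) : Prop :=
  ∀ k, LinearIndependent K ![V k, V (k + a), V (k + b), V (k + (a + b))]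

theorem det_ne_of_li (x y z u : Fin 4 → K) (h : LinearIndependent K ![x, y, z, u]) :
    IsUnit (of ![x, y, z, u]).det := by
  have h1 : LinearIndependent K (of ![x, y, z, u]).row := h
  exact (Matrix.isUnit_iff_isUnit_det _).1 (Matrix.linearIndependent_rows_iff_isUnit.1 h1)

theorem eq_zero_of_dots (x y z u ψ : Fin 4 → K) (h : LinearIndependent K ![x, y, z, u])
    (hx : ψ ⬝ᵥ x = 0) (hy : ψ ⬝ᵥ y = 0) (hz : ψ ⬝ᵥ z = 0) (hu : ψ ⬝ᵥ u = 0) : ψ = 0 := by
  have hd := det_ne_of_li x y z u h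
  apply Matrix.eq_zero_of_mulVec_eq_zero hd.ne_zero
  funext i
  fin_cases i
  · simpa [Matrix.mulVec, dotProduct_comm] using hx
  · simpa [Matrix.mulVec, dotProduct_comm] using hy
  · simpa [Matrix.mulVec, dotProduct_comm] using hz
  · simpa [Matrix.mulVec, dotProduct_comm] using hu

theorem halfFun_inj (a b : ℤ) (p r : K) (hp : p ≠ 0) (hr : r ≠ 0) (V : ℤ → Fin 4 → K)
    (hV : Nondeg a b V) (ψ : ℤ → Fin 4 → K)
    (hψ : ψ ∈ flexes a b p r V) (h0 : halfFun a b p r V ψ = 0) : ψ = 0 := by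
  have hk : ∀ k, ψ (k + a) ⬝ᵥ V (k + (a + b)) = 0 ∧ ψ (k + (a + b)) ⬝ᵥ V k = 0 ∧
      ψ k ⬝ᵥ V (k + a) = 0 := by
    intro k
    have h1 := congrFun h0 k
    have h2 := Fintype.linearIndependent_iff.1 (hV k)
      ![p * (ψ (k + a) ⬝ᵥ V (k + (a + b))), p * r * (ψ (k + (a + b)) ⬝ᵥ V k), 0,
        ψ k ⬝ᵥ V (k + a)] (by
        simp only [halfFun, LinearMap.coe_mk, AddHom.coe_mk] at h1
        simp only [Fin.sum_univ_four, cons_val_zero, cons_val_one, cons_val, zero_smul, add_zero]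
        exact h1)
    have e0 := h2 0
    have e1 := h2 1
    have e3 := h2 3
    simp only [cons_val_zero, cons_val_one, cons_val] at e0 e1 e3
    exact ⟨(mul_eq_zero.1 e0).resolve_left hp, (mul_eq_zero.1 e1).resolve_left (mul_ne_zero hp hr), e3⟩
  funext k
  apply eq_zero_of_dots _ _ _ _ _ (hV k)
  · exact (hψ k).1
  · exact (hk k).2.2
  · have := (hk (k - a)).1
    have e1 : k - a + a = k := by ring
    have e2 : k - a + (a + b) = k + b := by ring
    rw [e1, e2] at this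
    exact this
  · have h4 := (hψ k).2.2.2
    rw [(hk k).2.1] at h4
    simpa using h4

/-! ### dimension -/

section recursion

def fwd (a b c : ℕ) (ha : 0 < a) (hb : 0 < b) (hc : 0 < c) (N : ℤ → K × K × K → K × K × K)
    (F0 G0 H0 : ℕ → K) : ℕ → K × K × K
  | k => (if h : k < a then F0 k else (N ((k : ℤ) - a) (fwd a b c ha hb hc N F0 G0 H0 (k - a))).1,
      if h : k < b then G0 k else (N ((k : ℤ) - b) (fwd a b c ha hb hc N F0 G0 H0 (k - b))).2.1,
      if h : k < c then H0 k else (N ((k : ℤ) - c) (fwd a b c ha hb hc N F0 G0 H0 (k - c))).2.2)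
termination_by k => k
decreasing_by all_goals omega

def bwd (a b c : ℕ) (ha : 0 < a) (hb : 0 < b) (hc : 0 < c) (Ni : ℤ → K × K × K → K × K × K)
    (u : ℕ → K × K × K) : ℕ → K × K × K
  | j => Ni (-1 - (j : ℤ))
      (if h : j < a then (u (a - 1 - j)).1 else (bwd a b c ha hb hc Ni u (j - a)).1,
      if h : j < b then (u (b - 1 - j)).2.1 else (bwd a b c ha hb hc Ni u (j - b)).2.1,
      if h : j < c then (u (c - 1 - j)).2.2 else (bwd a b c ha hb hc Ni u (j - c)).2.2)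
termination_by j => j
decreasing_by all_goals omega

def glue (u w : ℕ → K × K × K) : ℤ → K × K × K
  | Int.ofNat k => u k
  | Int.negSucc j => w j

theorem glue_nat (u w : ℕ → K × K × K) (k : ℕ) : glue u w (k : ℤ) = u k := rfl

theorem glue_neg (u w : ℕ → K × K × K) (j : ℕ) : glue u w (-1 - (j : ℤ)) = w j := by
  have : (-1 - (j : ℤ)) = Int.negSucc j := by omega
  rw [this]
  rfl

theorem exists_seq (a b c : ℕ) (ha : 0 < a) (hb : 0 < b) (hc : 0 < c)
    (N Ni : ℤ → K × K × K → K × K × K) (hN : ∀ k t, N k (Ni k t) = t) (F0 G0 H0 : ℕ → K) :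
    ∃ u : ℤ → K × K × K, (∀ i : ℕ, i < a → (u i).1 = F0 i) ∧ (∀ i : ℕ, i < b → (u i).2.1 = G0 i) ∧
      (∀ i : ℕ, i < c → (u i).2.2 = H0 i) ∧
      ∀ k : ℤ, (u (k + a)).1 = (N k (u k)).1 ∧ (u (k + b)).2.1 = (N k (u k)).2.1 ∧
        (u (k + c)).2.2 = (N k (u k)).2.2 := by
  set U := fwd a b c ha hb hc N F0 G0 H0 with hU
  set W := bwd a b c ha hb hc Ni U with hW
  refine ⟨glue U W, ?_, ?_, ?_, ?_⟩
  · intro i hi
    rw [glue_nat, hU, fwd]
    simp [hi]
  · intro i hi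
    rw [glue_nat, hU, fwd]
    simp [hi]
  · intro i hi
    rw [glue_nat, hU, fwd]
    simp [hi]
  · intro k
    obtain ⟨m, rfl | rfl⟩ : ∃ m : ℕ, k = m ∨ k = -1 - (m : ℤ) := by
      rcases lt_or_ge k 0 with h | h
      · exact ⟨(-1 - k).toNat, Or.inr (by omega)⟩
      · exact ⟨k.toNat, Or.inl (by omega)⟩
    · refine ⟨?_, ?_, ?_⟩
      · have e : ((m : ℤ) + (a : ℤ)) = ((m + a : ℕ) : ℤ) := by push_cast; ring
        rw [e, glue_nat, glue_nat, hU, fwd, ← hU]
        have h1 : ¬ (m + a < a) := by omega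
        have h2 : m + a - a = m := by omega
        have h3 : ((m + a : ℕ) : ℤ) - a = m := by push_cast; ring
        simp only [h1, dite_false, h2, h3]
      · have e : ((m : ℤ) + (b : ℤ)) = ((m + b : ℕ) : ℤ) := by push_cast; ring
        rw [e, glue_nat, glue_nat, hU, fwd, ← hU]
        have h1 : ¬ (m + b < b) := by omega
        have h2 : m + b - b = m := by omega
        have h3 : ((m + b : ℕ) : ℤ) - b = m := by push_cast; ring
        simp only [h1, dite_false, h2, h3]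
      · have e : ((m : ℤ) + (c : ℤ)) = ((m + c : ℕ) : ℤ) := by push_cast; ring
        rw [e, glue_nat, glue_nat, hU, fwd, ← hU]
        have h1 : ¬ (m + c < c) := by omega
        have h2 : m + c - c = m := by omega
        have h3 : ((m + c : ℕ) : ℤ) - c = m := by push_cast; ring
        simp only [h1, dite_false, h2, h3]
    · have key : ∀ (s : ℕ), 0 < s → glue U W (-1 - (m : ℤ) + s) =
          if m < s then U (s - 1 - m) else W (m - s) := by
        intro s hs
        split_ifs with h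
        · have e : (-1 - (m : ℤ) + s) = ((s - 1 - m : ℕ) : ℤ) := by omega
          rw [e, glue_nat]
        · have e : (-1 - (m : ℤ) + s) = -1 - ((m - s : ℕ) : ℤ) := by omega
          rw [e, glue_neg]
      have hm : N (-1 - (m : ℤ)) (glue U W (-1 - (m : ℤ))) =
          (if h : m < a then (U (a - 1 - m)).1 else (W (m - a)).1,
          if h : m < b then (U (b - 1 - m)).2.1 else (W (m - b)).2.1,
          if h : m < c then (U (c - 1 - m)).2.2 else (W (m - c)).2.2) := by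
        rw [glue_neg, hW, bwd, hN]
      rw [hm, key a ha, key b hb, key c hc]
      refine ⟨?_, ?_, ?_⟩
      · by_cases h : m < a <;> simp [h]
      · by_cases h : m < b <;> simp [h]
      · by_cases h : m < c <;> simp [h]

end recursion

theorem solve_dots (x y z u : Fin 4 → K) (h : LinearIndependent K ![x, y, z, u]) (t : Fin 4 → K) :
    ∃ ψ : Fin 4 → K, ψ ⬝ᵥ x = t 0 ∧ ψ ⬝ᵥ y = t 1 ∧ ψ ⬝ᵥ z = t 2 ∧ ψ ⬝ᵥ u = t 3 := by
  have hd := det_ne_of_li x y z u h
  have h1 : (of ![x, y, z, u]) *ᵥ ((of ![x, y, z, u])⁻¹ *ᵥ t) = t := by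
    rw [Matrix.mulVec_mulVec, Matrix.mul_nonsing_inv _ hd, Matrix.one_mulVec]
  refine ⟨(of ![x, y, z, u])⁻¹ *ᵥ t, ?_, ?_, ?_, ?_⟩
  · have := congrFun h1 0
    rw [dotProduct_comm]
    exact this
  · have := congrFun h1 1
    rw [dotProduct_comm]
    exact this
  · have := congrFun h1 2
    rw [dotProduct_comm]
    exact this
  · have := congrFun h1 3
    rw [dotProduct_comm]
    exact this

/-- The initial data of a flex. -/
def initData (a b : ℕ) (p r : K) (V : ℤ → Fin 4 → K) :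
    flexes a b p r V →ₗ[K] (Fin a → K) × (Fin b → K) × (Fin (a + b) → K) where
  toFun ψ := (fun i => ψ.1 (i : ℕ) ⬝ᵥ V ((i : ℕ) - a), fun i => ψ.1 (i : ℕ) ⬝ᵥ V ((i : ℕ) - b),
    fun i => ψ.1 (i : ℕ) ⬝ᵥ V ((i : ℕ) - (a + b)))
  map_add' := by
    intro x y
    simp only [Submodule.coe_add, Pi.add_apply, add_dotProduct]
    rfl
  map_smul' := by
    intro c x
    simp only [Submodule.coe_smul, Pi.smul_apply, smul_dotProduct]
    rfl

theorem initData_inj (a b : ℕ) (ha : 0 < a) (hb : 0 < b) (p r : K) (hp : p ≠ 0) (hr : r ≠ 0)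
    (V : ℤ → Fin 4 → K) (hV : Nondeg a b V) : Function.Injective (initData a b p r V) := by
  rw [← LinearMap.ker_eq_bot, LinearMap.ker_eq_bot']
  rintro ⟨ψ, hψ⟩ h0
  have h1 : ∀ i : ℕ, i < a → ψ i ⬝ᵥ V (i - a) = 0 := fun i hi =>
    congrFun (congrArg Prod.fst h0) ⟨i, hi⟩
  have h2 : ∀ i : ℕ, i < b → ψ i ⬝ᵥ V (i - b) = 0 := fun i hi =>
    congrFun (congrArg (fun x => x.2.1) h0) ⟨i, hi⟩
  have h3 : ∀ i : ℕ, i < a + b → ψ i ⬝ᵥ V (i - (a + b)) = 0 := fun i hi =>
    congrFun (congrArg (fun x => x.2.2) h0) ⟨i, hi⟩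
  have hf : ∀ m : ℕ, ψ m = 0 := by
    intro m
    induction m using Nat.strong_induction_on with
    | _ m ih =>
      have e1 : ψ m ⬝ᵥ V (m - a) = 0 := by
        rcases lt_or_ge m a with h | h
        · exact h1 m h
        · have h4 := (hψ ((m : ℤ) - a)).2.1
          have h5 := ih (m - a) (by omega)
          have h6 : (((m - a : ℕ)) : ℤ) = (m : ℤ) - a := by omega
          rw [h6] at h5
          rw [h5, sub_add_cancel] at h4
          simp only [zero_dotProduct, zero_add, mul_eq_zero] at h4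
          exact h4.resolve_left hp
      have e2 : ψ m ⬝ᵥ V (m - b) = 0 := by
        rcases lt_or_ge m b with h | h
        · exact h2 m h
        · have h4 := (hψ ((m : ℤ) - b)).2.2.1
          have h5 := ih (m - b) (by omega)
          have h6 : (((m - b : ℕ)) : ℤ) = (m : ℤ) - b := by omega
          rw [h6] at h5
          rw [h5, sub_add_cancel] at h4
          simp only [zero_dotProduct, zero_add, mul_eq_zero] at h4
          exact h4.resolve_left hr
      have e3 : ψ m ⬝ᵥ V (m - (a + b)) = 0 := by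
        rcases lt_or_ge m (a + b) with h | h
        · exact h3 m h
        · have h4 := (hψ ((m : ℤ) - (a + b))).2.2.2
          have h5 := ih (m - (a + b)) (by omega)
          have h6 : (((m - (a + b) : ℕ)) : ℤ) = (m : ℤ) - (a + b) := by omega
          rw [h6] at h5
          rw [h5, sub_add_cancel] at h4
          simp only [zero_dotProduct, zero_add, mul_eq_zero] at h4
          exact h4.resolve_left (not_or.2 ⟨hp, hr⟩)
      have hv := hV ((m : ℤ) - (a + b))
      have g1 : (m : ℤ) - (a + b) + a = m - b := by ring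
      have g2 : (m : ℤ) - (a + b) + b = m - a := by ring
      rw [g1, g2, sub_add_cancel] at hv
      exact eq_zero_of_dots _ _ _ _ _ hv e3 e2 e1 (hψ m).1
  have hg : ∀ m : ℕ, ∀ j : ℤ, -(m : ℤ) ≤ j → ψ j = 0 := by
    intro m
    induction m with
    | zero =>
      intro j hj
      have := hf j.toNat
      rwa [Int.toNat_of_nonneg (by simpa using hj)] at this
    | succ m ih =>
      intro j hj
      rcases eq_or_lt_of_le hj with h | h
      · have i1 := ih (j + a) (by push_cast at h; omega)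
        have i2 := ih (j + b) (by push_cast at h; omega)
        have i3 := ih (j + (a + b)) (by push_cast at h; omega)
        obtain ⟨g0, g1, g2, g3⟩ := hψ j
        rw [i1] at g1
        rw [i2] at g2
        rw [i3] at g3
        simp only [zero_dotProduct, mul_zero, add_zero] at g1 g2 g3
        exact eq_zero_of_dots _ _ _ _ _ (hV j) g0 g1 g2 g3
      · exact ih j (by push_cast at h; omega)
  apply Subtype.ext
  funext j
  exact hg j.natAbs j (by omega)

theorem initData_surj (a b : ℕ) (ha : 0 < a) (hb : 0 < b) (p r : K) (hp : p ≠ 0) (hr : r ≠ 0)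
    (V : ℤ → Fin 4 → K) (hV : Nondeg a b V) : Function.Surjective (initData a b p r V) := by
  rintro ⟨F, G, H⟩
  -- minus solver
  have hm : ∀ (k : ℤ) (t : K × K × K), ∃ ψ : Fin 4 → K, ψ ⬝ᵥ V (k - a) = t.1 ∧
      ψ ⬝ᵥ V (k - b) = t.2.1 ∧ ψ ⬝ᵥ V (k - (a + b)) = t.2.2 ∧ ψ ⬝ᵥ V k = 0 := by
    intro k t
    have hv := hV (k - (a + b))
    have g1 : k - (a + b) + a = k - b := by ring
    have g2 : k - (a + b) + b = k - a := by ring
    rw [g1, g2, sub_add_cancel] at hv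
    obtain ⟨ψ, h1, h2, h3, h4⟩ := solve_dots _ _ _ _ hv ![t.2.2, t.2.1, t.1, 0]
    exact ⟨ψ, h3, h2, h1, h4⟩
  have hpl : ∀ (k : ℤ) (t : K × K × K), ∃ ψ : Fin 4 → K, ψ ⬝ᵥ V (k + a) = - p * t.1 ∧
      ψ ⬝ᵥ V (k + b) = - r * t.2.1 ∧ ψ ⬝ᵥ V (k + (a + b)) = - (p * r) * t.2.2 ∧
      ψ ⬝ᵥ V k = 0 := by
    intro k t
    obtain ⟨ψ, h1, h2, h3, h4⟩ := solve_dots _ _ _ _ (hV k) ![0, - p * t.1, - r * t.2.1,
      - (p * r) * t.2.2]
    exact ⟨ψ, h2, h3, h4, h1⟩
  choose sm hsm using hm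
  choose sp hsp using hpl
  have uniq : ∀ (k : ℤ) (x y : Fin 4 → K), x ⬝ᵥ V (k - a) = y ⬝ᵥ V (k - a) →
      x ⬝ᵥ V (k - b) = y ⬝ᵥ V (k - b) → x ⬝ᵥ V (k - (a + b)) = y ⬝ᵥ V (k - (a + b)) →
      x ⬝ᵥ V k = y ⬝ᵥ V k → x = y := by
    intro k x y h1 h2 h3 h4
    have hv := hV (k - (a + b))
    have g1 : k - (a + b) + a = k - b := by ring
    have g2 : k - (a + b) + b = k - a := by ring
    rw [g1, g2, sub_add_cancel] at hv
    have := eq_zero_of_dots _ _ _ _ (x - y) hv (by rw [sub_dotProduct, h3, sub_self])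
      (by rw [sub_dotProduct, h2, sub_self]) (by rw [sub_dotProduct, h1, sub_self])
      (by rw [sub_dotProduct, h4, sub_self])
    exact sub_eq_zero.1 this
  set N : ℤ → K × K × K → K × K × K := fun k t =>
    (- p⁻¹ * (sm k t ⬝ᵥ V (k + a)), - r⁻¹ * (sm k t ⬝ᵥ V (k + b)),
      - (p * r)⁻¹ * (sm k t ⬝ᵥ V (k + (a + b)))) with hNdef
  set Ni : ℤ → K × K × K → K × K × K := fun k t =>
    (sp k t ⬝ᵥ V (k - a), sp k t ⬝ᵥ V (k - b), sp k t ⬝ᵥ V (k - (a + b))) with hNi
  have hN : ∀ k t, N k (Ni k t) = t := by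
    intro k t
    have e : sm k (Ni k t) = sp k t := by
      apply uniq k
      · exact (hsm k (Ni k t)).1
      · exact (hsm k (Ni k t)).2.1
      · exact (hsm k (Ni k t)).2.2.1
      · rw [(hsm k (Ni k t)).2.2.2, (hsp k t).2.2.2]
    simp only [hNdef]
    rw [e, (hsp k t).1, (hsp k t).2.1, (hsp k t).2.2.1]
    refine Prod.ext ?_ (Prod.ext ?_ ?_)
    · simp only; field_simp
    · simp only; field_simp
    · simp only; field_simp
  obtain ⟨u, hu1, hu2, hu3, hu4⟩ := exists_seq a b (a + b) ha hb (by omega) N Ni hN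
    (fun i => if h : i < a then F ⟨i, h⟩ else 0) (fun i => if h : i < b then G ⟨i, h⟩ else 0)
    (fun i => if h : i < a + b then H ⟨i, h⟩ else 0)
  refine ⟨⟨fun k => sm k (u k), ?_⟩, ?_⟩
  · intro k
    have e1 := (hsm (k + a) (u (k + a))).1
    have e2 := (hsm (k + b) (u (k + b))).2.1
    have e3 := (hsm (k + (a + b)) (u (k + (a + b)))).2.2.1
    have f := hu4 k
    push_cast at f
    obtain ⟨f1, f2, f3⟩ := f
    rw [add_sub_cancel_right, f1] at e1
    rw [add_sub_cancel_right, f2] at e2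
    rw [add_sub_cancel_right, f3] at e3
    refine ⟨(hsm k (u k)).2.2.2, ?_, ?_, ?_⟩
    · simp only []
      rw [e1]
      simp only [hNdef]
      field_simp
      ring
    · simp only []
      rw [e2]
      simp only [hNdef]
      field_simp
      ring
    · simp only []
      rw [e3]
      simp only [hNdef]
      field_simp
      ring
  · refine Prod.ext ?_ (Prod.ext ?_ ?_)
    · funext i
      have := hu1 i i.2
      simp only [i.2, dite_true] at this
      simp only [initData, LinearMap.coe_mk, AddHom.coe_mk]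
      rw [(hsm _ _).1, this]
    · funext i
      have := hu2 i i.2
      simp only [i.2, dite_true] at this
      simp only [initData, LinearMap.coe_mk, AddHom.coe_mk]
      rw [(hsm _ _).2.1, this]
    · funext i
      have := hu3 i i.2
      simp only [i.2, dite_true] at this
      simp only [initData, LinearMap.coe_mk, AddHom.coe_mk]
      rw [(hsm _ _).2.2.1, this]

theorem finrank_flexes (a b : ℕ) (ha : 0 < a) (hb : 0 < b) (p r : K) (hp : p ≠ 0) (hr : r ≠ 0)
    (V : ℤ → Fin 4 → K) (hV : Nondeg a b V) :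
    Module.Finite K (flexes a b p r V) ∧ finrank K (flexes a b p r V) = 2 * (a + b) := by
  have e := LinearEquiv.ofBijective (initData a b p r V)
    ⟨initData_inj a b ha hb p r hp hr V hV, initData_surj a b ha hb p r hp hr V hV⟩
  refine ⟨Module.Finite.equiv e.symm, ?_⟩
  rw [e.finrank_eq, Module.finrank_prod, Module.finrank_prod, Module.finrank_fin_fun,
    Module.finrank_fin_fun, Module.finrank_fin_fun]
  ring

/-! ### planes and the map -/

/-- The plane `P_k` (as a 3-dimensional linear subspace) spanned by `v_k, v_{k+a}, v_{k+a+b}`. -/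
def plane (a b : ℤ) (V : ℤ → Fin 4 → K) (k : ℤ) : Submodule K (Fin 4 → K) :=
  Submodule.span K {V k, V (k + a), V (k + (a + b))}

theorem dual_dot_of_mem (a b : ℤ) (V : ℤ → Fin 4 → K) (k : ℤ) (x : Fin 4 → K)
    (hx : x ∈ plane a b V k) : dualPoly a b V k ⬝ᵥ x = 0 := by
  induction hx using Submodule.span_induction with
  | mem y hy =>
    simp only [Set.mem_insert_iff, Set.mem_singleton_iff] at hy
    rcases hy with rfl | rfl | rfl
    · exact cr_dot_1 _ _ _
    · exact cr_dot_2 _ _ _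
    · exact cr_dot_3 _ _ _
  | zero => simp
  | add y z _ _ hy hz => rw [dotProduct_add, hy, hz, add_zero]
  | smul c y _ hy => rw [dotProduct_smul, hy, smul_zero]

theorem mem_of_dual_dot (a b : ℤ) (V : ℤ → Fin 4 → K) (hV : Nondeg a b V) (k : ℤ) (x : Fin 4 → K)
    (hx : dualPoly a b V k ⬝ᵥ x = 0) : x ∈ plane a b V k := by
  -- expand x in the basis V k, V (k+a), V (k+b), V (k+(a+b))
  have hli := hV k
  have hspan : (⊤ : Submodule K (Fin 4 → K)) ≤ Submodule.span K (Set.range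
      ![V k, V (k + a), V (k + b), V (k + (a + b))]) := by
    rw [LinearIndependent.span_eq_top_of_card_eq_finrank' hli (by simp)]
  have hx' := hspan (Submodule.mem_top : x ∈ ⊤)
  rw [Submodule.mem_span_range_iff_exists_fun] at hx'
  obtain ⟨c, hc⟩ := hx'
  simp only [Fin.sum_univ_four, cons_val_zero, cons_val_one, cons_val] at hc
  have hd : dualPoly a b V k ⬝ᵥ V (k + b) ≠ 0 := by
    intro h0
    have := eq_zero_of_dots _ _ _ _ (dualPoly a b V k) hli (cr_dot_1 _ _ _) (cr_dot_2 _ _ _) h0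
      (cr_dot_3 _ _ _)
    have h2 := det_ne_of_li _ _ _ _ hli
    have h3 : (of ![V (k + b), V k, V (k + a), V (k + (a + b))]).det ≠ 0 := by
      have : (of ![V (k + b), V k, V (k + a), V (k + (a + b))]).det =
          (of ![V k, V (k + a), V (k + b), V (k + (a + b))]).det := by
        simp [Matrix.det_succ_row_zero, Fin.sum_univ_succ, Fin.succAbove]
        ring
      rw [this]
      exact h2.ne_zero
    rw [← cr_dot] at h3
    exact h3 h0
  have hc2 : c 2 = 0 := by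
    rw [← hc] at hx
    simp only [dotProduct_add, dotProduct_smul, smul_eq_mul] at hx
    have e1 : dualPoly a b V k ⬝ᵥ V k = 0 := cr_dot_1 _ _ _
    have e2 : dualPoly a b V k ⬝ᵥ V (k + a) = 0 := cr_dot_2 _ _ _
    have e3 : dualPoly a b V k ⬝ᵥ V (k + (a + b)) = 0 := cr_dot_3 _ _ _
    rw [e1, e2, e3] at hx
    simp only [mul_zero, zero_add, add_zero, mul_eq_zero] at hx
    exact hx.resolve_right hd
  rw [← hc, hc2, zero_smul, add_zero]
  refine Submodule.add_mem _ (Submodule.add_mem _ ?_ ?_) ?_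
  · exact Submodule.smul_mem _ _ (Submodule.subset_span (by simp))
  · exact Submodule.smul_mem _ _ (Submodule.subset_span (by simp))
  · exact Submodule.smul_mem _ _ (Submodule.subset_span (by simp))

theorem nondeg_dual (a b : ℤ) (V : ℤ → Fin 4 → K) (hV : Nondeg a b V)
    (h2 : ∀ k, plane a b V k ⊓ plane a b V (k + a) ⊓ plane a b V (k + b) ⊓
      plane a b V (k + (a + b)) = ⊥) : Nondeg a b (dualPoly a b V) := by
  intro k
  by_contra hcon
  have hdet : (of ![dualPoly a b V k, dualPoly a b V (k + a), dualPoly a b V (k + b),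
      dualPoly a b V (k + (a + b))]).det = 0 := by
    by_contra hne
    apply hcon
    exact Matrix.linearIndependent_rows_iff_isUnit.2
      ((Matrix.isUnit_iff_isUnit_det _).2 (isUnit_iff_ne_zero.2 hne))
  obtain ⟨x, hx0, hx⟩ := Matrix.exists_mulVec_eq_zero_iff.2 hdet
  apply hx0
  have hmem : x ∈ (⊥ : Submodule K (Fin 4 → K)) := by
    rw [← h2 k]
    refine ⟨⟨⟨?_, ?_⟩, ?_⟩, ?_⟩
    · exact mem_of_dual_dot a b V hV _ _ (congrFun hx 0)
    · exact mem_of_dual_dot a b V hV _ _ (congrFun hx 1)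
    · exact mem_of_dual_dot a b V hV _ _ (congrFun hx 2)
    · exact mem_of_dual_dot a b V hV _ _ (congrFun hx 3)
  simpa using hmem

theorem exists_scale (a b : ℤ) (W : ℤ → Fin 4 → K) (hW : Nondeg a b W) (k : ℤ) (x : Fin 4 → K)
    (hx : x ≠ 0) (h1 : W k ⬝ᵥ x = 0) (h2 : W (k + a) ⬝ᵥ x = 0) (h3 : W (k + (a + b)) ⬝ᵥ x = 0) :
    ∃ t : K, t ≠ 0 ∧ x = t • dualPoly a b W k := by
  have hli := hW k
  rw [dotProduct_comm] at h1 h2 h3
  have hs : dualPoly a b W k ⬝ᵥ W (k + b) ≠ 0 := by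
    have h2 := det_ne_of_li _ _ _ _ hli
    have h3 : (of ![W (k + b), W k, W (k + a), W (k + (a + b))]).det ≠ 0 := by
      have : (of ![W (k + b), W k, W (k + a), W (k + (a + b))]).det =
          (of ![W k, W (k + a), W (k + b), W (k + (a + b))]).det := by
        simp [Matrix.det_succ_row_zero, Fin.sum_univ_succ, Fin.succAbove]
        ring
      rw [this]
      exact h2.ne_zero
    rw [← cr_dot] at h3
    exact h3
  have hxs : x ⬝ᵥ W (k + b) ≠ 0 := by
    intro h0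
    exact hx (eq_zero_of_dots _ _ _ _ x hli h1 h2 h0 h3)
  refine ⟨x ⬝ᵥ W (k + b) / (dualPoly a b W k ⬝ᵥ W (k + b)), div_ne_zero hxs hs, ?_⟩
  have := eq_zero_of_dots _ _ _ _
    (x - (x ⬝ᵥ W (k + b) / (dualPoly a b W k ⬝ᵥ W (k + b))) • dualPoly a b W k) hli ?_ ?_ ?_ ?_
  · exact sub_eq_zero.1 this
  · rw [sub_dotProduct, smul_dotProduct, h1]
    have : dualPoly a b W k ⬝ᵥ W k = 0 := cr_dot_1 _ _ _
    rw [this]; simp
  · rw [sub_dotProduct, smul_dotProduct, h2]
    have : dualPoly a b W k ⬝ᵥ W (k + a) = 0 := cr_dot_2 _ _ _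
    rw [this]; simp
  · rw [sub_dotProduct, smul_dotProduct, smul_eq_mul, div_mul_cancel₀ _ hs, sub_self]
  · rw [sub_dotProduct, smul_dotProduct, h3]
    have : dualPoly a b W k ⬝ᵥ W (k + (a + b)) = 0 := cr_dot_3 _ _ _
    rw [this]; simp

/-! ### monodromy -/

theorem shift_add (n : ℕ) (M : Matrix (Fin 4) (Fin 4) K) (x y : ℤ → Fin 4 → K) :
    (fun k : ℤ => (x + y) (k + n) ᵥ* M) =
      (fun k : ℤ => x (k + n) ᵥ* M) + (fun k : ℤ => y (k + n) ᵥ* M) := by
  funext k
  simp [Matrix.add_vecMul]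

theorem shift_smul (n : ℕ) (M : Matrix (Fin 4) (Fin 4) K) (c : K) (x : ℤ → Fin 4 → K) :
    (fun k : ℤ => (c • x) (k + n) ᵥ* M) = (RingHom.id K) c • (fun k : ℤ => x (k + n) ᵥ* M) := by
  funext k
  simp [Matrix.smul_vecMul]

/-- Translation by `n` followed by composition with `M`. -/
def shiftOp (n : ℕ) (M : Matrix (Fin 4) (Fin 4) K) :
    (ℤ → Fin 4 → K) →ₗ[K] (ℤ → Fin 4 → K) where
  toFun ψ := fun k => ψ (k + n) ᵥ* M
  map_add' := shift_add n M
  map_smul' := shift_smul n M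

theorem shiftOp_mem {n : ℕ} {M : Matrix (Fin 4) (Fin 4) K} {V : ℤ → Fin 4 → K}
    (hV : ∀ k, V (k + n) = M *ᵥ V k) (a b : ℤ) (p r : K) :
    ∀ ψ ∈ flexes a b p r V, shiftOp n M ψ ∈ flexes a b p r V := by
  intro ψ hψ k
  have hd : ∀ i j, (shiftOp n M ψ) i ⬝ᵥ V j = ψ (i + n) ⬝ᵥ V (j + n) := by
    intro i j
    rw [hV j, Matrix.dotProduct_mulVec]
    rfl
  have h := hψ (k + n)
  have ea : k + a + n = k + n + a := by ring
  have eb : k + b + n = k + n + b := by ring
  have ec : k + (a + b) + n = k + n + (a + b) := by ring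
  simp only [hd, ea, eb, ec]
  exact h

/-- The monodromy operator on the flexes of a twisted polygon. -/
def monodromy {n : ℕ} {M : Matrix (Fin 4) (Fin 4) K} {V : ℤ → Fin 4 → K}
    (hV : ∀ k, V (k + n) = M *ᵥ V k) (a b : ℤ) (p r : K) :
    flexes a b p r V →ₗ[K] flexes a b p r V :=
  (shiftOp n M).restrict (shiftOp_mem hV a b p r)

theorem cr_mulVec (M : Matrix (Fin 4) (Fin 4) K) (x y z : Fin 4 → K) :
    cr (M *ᵥ x) (M *ᵥ y) (M *ᵥ z) ᵥ* M = M.det • cr x y z := by
  apply dotProduct_eq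
  intro u
  rw [← Matrix.dotProduct_mulVec, cr_dot, smul_dotProduct, cr_dot]
  have : (of ![M *ᵥ u, M *ᵥ x, M *ᵥ y, M *ᵥ z]) = (of ![u, x, y, z]) * Mᵀ := by
    ext i j
    fin_cases i <;> simp [Matrix.mul_apply, Matrix.mulVec, dotProduct, mul_comm]
  rw [this, Matrix.det_mul, Matrix.det_transpose, smul_eq_mul, mul_comm]

/-- Intertwining of one half-step with the monodromy. -/
theorem half_shift {n : ℕ} {M : Matrix (Fin 4) (Fin 4) K} {V : ℤ → Fin 4 → K}
    (hV : ∀ k, V (k + n) = M *ᵥ V k) (a b : ℤ) (p r : K) (ψ : ℤ → Fin 4 → K) (k : ℤ) :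
    halfFun a b p r V ψ (k + n) = M *ᵥ (halfFun a b p r V (shiftOp n M ψ) k) := by
  have hd : ∀ i j, (shiftOp n M ψ) i ⬝ᵥ V j = ψ (i + n) ⬝ᵥ V (j + n) := by
    intro i j
    rw [hV j, Matrix.dotProduct_mulVec]
    rfl
  simp only [halfFun, LinearMap.coe_mk, AddHom.coe_mk, hd, Matrix.mulVec_add, Matrix.mulVec_smul,
    ← hV]
  have ea : k + a + n = k + n + a := by ring
  have ec : k + (a + b) + n = k + n + (a + b) := by ring
  rw [ea, ec]

/-- The dual polygon of a twisted polygon is twisted. -/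
theorem dual_shift {n : ℕ} {M : Matrix (Fin 4) (Fin 4) K} {V : ℤ → Fin 4 → K}
    (hV : ∀ k, V (k + n) = M *ᵥ V k) (a b : ℤ) (k : ℤ) :
    dualPoly a b V (k + n) ᵥ* M = M.det • dualPoly a b V k := by
  have ea : k + n + a = k + a + n := by ring
  have ec : k + n + (a + b) = k + (a + b) + n := by ring
  simp only [dualPoly, ea, ec, hV]
  exact cr_mulVec M _ _ _

theorem cr_smul (c : K) (x y z : Fin 4 → K) : cr (c • x) (c • y) (c • z) = c ^ 3 • cr x y z := by
  funext i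
  fin_cases i <;> simp [cr] <;> ring

/-- Second half-step: `W` is the dual polygon. -/
theorem dual_dual_shift {n : ℕ} {M : Matrix (Fin 4) (Fin 4) K} (hM : M.det ≠ 0)
    {W : ℤ → Fin 4 → K} (hW : ∀ k, W (k + n) ᵥ* M = M.det • W k) (a b : ℤ) (k : ℤ) :
    dualPoly a b W (k + n) = M.det ^ 2 • (M *ᵥ dualPoly a b W k) := by
  have h := cr_mulVec Mᵀ (W (k + n)) (W (k + n + a)) (W (k + n + (a + b)))
  have ea : k + n + a = k + a + n := by ring
  have ec : k + n + (a + b) = k + (a + b) + n := by ring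
  rw [Matrix.mulVec_transpose, Matrix.mulVec_transpose, Matrix.mulVec_transpose, ea, ec, hW, hW, hW,
    cr_smul, Matrix.vecMul_transpose, Matrix.det_transpose, Matrix.mulVec_smul] at h
  simp only [dualPoly]
  rw [ea, ec]
  have h' : M.det • cr (W (k + n)) (W (k + a + n)) (W (k + (a + b) + n)) =
      M.det • (M.det ^ 2 • (M *ᵥ cr (W k) (W (k + a)) (W (k + (a + b))))) := by
    rw [← h, smul_smul]
    congr 1
    ring
  exact smul_right_injective _ hM h'

theorem half_shift_dual {n : ℕ} {M : Matrix (Fin 4) (Fin 4) K}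
    {W : ℤ → Fin 4 → K} (hW : ∀ k, W (k + n) ᵥ* M = M.det • W k) (a b : ℤ) (p r : K)
    (φ φ' : ℤ → Fin 4 → K) (hφ : ∀ k, φ (k + n) = M *ᵥ φ' k) (k : ℤ) :
    halfFun a b p r W φ (k + n) ᵥ* M = M.det ^ 2 • halfFun a b p r W φ' k := by
  have hd : ∀ i j, φ (i + n) ⬝ᵥ W (j + n) = M.det * (φ' i ⬝ᵥ W j) := by
    intro i j
    rw [hφ i, dotProduct_comm, Matrix.dotProduct_mulVec, hW, smul_dotProduct, dotProduct_comm,
      smul_eq_mul]
  have ea : k + n + a = k + a + n := by ring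
  have ec : k + n + (a + b) = k + (a + b) + n := by ring
  simp only [halfFun, LinearMap.coe_mk, AddHom.coe_mk, ea, ec, hd, Matrix.add_vecMul,
    Matrix.smul_vecMul, hW, smul_add, smul_smul]
  congr 1
  · congr 1
    · congr 1; ring
    · congr 1; ring
  · congr 1; ring

theorem flexes_scale (a b : ℤ) (p r : K) (U V' : ℤ → Fin 4 → K) (t : ℤ → K)
    (ht : ∀ k, V' k = t k • U k) (ψ : ℤ → Fin 4 → K) (hψ : ψ ∈ flexes a b p r U) :
    (fun k => t k • ψ k) ∈ flexes a b p r V' := by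
  intro k
  obtain ⟨h1, h2, h3, h4⟩ := hψ k
  simp only [ht, smul_dotProduct, dotProduct_smul, smul_eq_mul]
  refine ⟨?_, ?_, ?_, ?_⟩
  · rw [h1]; ring
  · linear_combination t k * t (k + a) * h2
  · linear_combination t k * t (k + b) * h3
  · linear_combination t k * t (k + (a + b)) * h4

/-- Multiplication by a sequence of scalars. -/
def scaleOp (t : ℤ → K) : (ℤ → Fin 4 → K) →ₗ[K] (ℤ → Fin 4 → K) where
  toFun ψ := fun k => t k • ψ k
  map_add' := by
    intro x y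
    funext k
    simp
  map_smul' := by
    intro c x
    funext k i
    simp only [Pi.smul_apply, smul_eq_mul, RingHom.id_apply]
    ring

/-- `V'` represents the image under `T_{(a,b),(a,b)}` of the polygon represented by `V`:
`V' k` is a nonzero vector of `P_k ∩ P_{k+a} ∩ P_{k+a+b}`. -/
def IsImage (a b : ℤ) (V V' : ℤ → Fin 4 → K) : Prop :=
  ∀ k, V' k ≠ 0 ∧ V' k ∈ plane a b V k ⊓ plane a b V (k + a) ⊓ plane a b V (k + (a + b))

/-- The planes `P_k, P_{k+a}, P_{k+b}, P_{k+a+b}` never have a common point. -/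
def NondegPlanes (a b : ℤ) (V : ℤ → Fin 4 → K) : Prop :=
  ∀ k, plane a b V k ⊓ plane a b V (k + a) ⊓ plane a b V (k + b) ⊓
      plane a b V (k + (a + b)) = ⊥

theorem image_equiv (a b n : ℕ) (ha : 0 < a) (hb : 0 < b) (M : Matrix (Fin 4) (Fin 4) K)
    (hM : M.det ≠ 0) (V V' : ℤ → Fin 4 → K)
    (hV : ∀ k, V (k + n) = M *ᵥ V k) (hV' : ∀ k, V' (k + n) = M *ᵥ V' k)
    (hT : IsImage a b V V')
    (h1 : Nondeg a b V)
    (h2 : NondegPlanes a b V)
    (h3 : Nondeg a b V')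
    (p r : K) (hp : p ≠ 0) (hr : r ≠ 0) :
    ∃ e : flexes a b p r V ≃ₗ[K] flexes a b p r V',
      ∀ ψ, e (monodromy hV a b p r ψ) = monodromy hV' a b p r (e ψ) := by
  obtain ⟨fin1, rk1⟩ := finrank_flexes a b ha hb p r hp hr V h1
  obtain ⟨fin2, rk2⟩ := finrank_flexes a b ha hb p r hp hr V' h3
  set W := dualPoly (a : ℤ) b V with hWdef
  have hW : Nondeg (a : ℤ) b W := nondeg_dual a b V h1 h2
  have hWs : ∀ k, W (k + n) ᵥ* M = M.det • W k := dual_shift hV a b
  have hsc : ∀ k, ∃ t : K, t ≠ 0 ∧ V' k = t • dualPoly a b W k := by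
    intro k
    obtain ⟨h0, ⟨m1, m2⟩, m3⟩ := hT k
    exact exists_scale a b W hW k (V' k) h0 (dual_dot_of_mem _ _ _ _ _ m1)
      (dual_dot_of_mem _ _ _ _ _ m2) (dual_dot_of_mem _ _ _ _ _ m3)
  choose t ht0 ht using hsc
  -- relation of the scales
  have htn : ∀ k, t (k + n) * M.det ^ 2 = t k := by
    intro k
    have e1 := hV' k
    rw [ht (k + n), ht k, dual_dual_shift hM hWs, smul_smul, Matrix.mulVec_smul] at e1
    have hne : M *ᵥ dualPoly a b W k ≠ 0 := by
      intro h0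
      have := hV' k
      rw [ht k, Matrix.mulVec_smul, h0, smul_zero] at this
      exact (hT (k + n)).1 this
    have e2 : (t (k + n) * M.det ^ 2 - t k) • (M *ᵥ dualPoly a b W k) = 0 := by
      rw [sub_smul, e1, sub_self]
    exact sub_eq_zero.1 ((smul_eq_zero.1 e2).resolve_right hne)
  -- the map
  have hmem : ∀ ψ ∈ flexes (a : ℤ) b p r V,
      ((scaleOp t) ∘ₗ (halfFun a b p r W) ∘ₗ (halfFun a b p r V)) ψ ∈ flexes (a : ℤ) b p r V' := by
    intro ψ hψ
    exact flexes_scale a b p r (dualPoly a b W) V' t ht _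
      (halfFun_mem _ _ _ _ _ _ (halfFun_mem _ _ _ _ _ _ hψ))
  set G := ((scaleOp t) ∘ₗ (halfFun a b p r W) ∘ₗ (halfFun a b p r V)).restrict hmem with hG
  have hinj : Function.Injective G := by
    rw [← LinearMap.ker_eq_bot, LinearMap.ker_eq_bot']
    rintro ⟨ψ, hψ⟩ h0
    have h00 : (fun k => t k • (halfFun a b p r W (halfFun a b p r V ψ)) k) = 0 :=
      congrArg Subtype.val h0
    have h01 : halfFun a b p r W (halfFun a b p r V ψ) = 0 := by
      funext k
      have := congrFun h00 k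
      exact (smul_eq_zero.1 this).resolve_left (ht0 k)
    have h02 := halfFun_inj a b p r hp hr W hW _ (halfFun_mem _ _ _ _ _ _ hψ) h01
    have h03 := halfFun_inj a b p r hp hr V h1 ψ hψ h02
    exact Subtype.ext h03
  refine ⟨LinearEquiv.ofInjectiveOfFinrankEq G hinj (by rw [rk1, rk2]), ?_⟩
  rintro ⟨ψ, hψ⟩
  apply Subtype.ext
  funext k
  have hk := half_shift_dual hWs a b p r (halfFun a b p r V ψ)
    (halfFun a b p r V (shiftOp n M ψ)) (half_shift hV a b p r ψ) k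
  have goal' : t k • (halfFun a b p r W (halfFun a b p r V (shiftOp n M ψ))) k =
      (t (k + n) • (halfFun a b p r W (halfFun a b p r V ψ)) (k + n)) ᵥ* M := by
    rw [Matrix.smul_vecMul, hk, smul_smul, htn]
  exact goal'

/-- Composition with a matrix, as a linear map on sequences. -/
def compOp (g : Matrix (Fin 4) (Fin 4) K) : (ℤ → Fin 4 → K) →ₗ[K] (ℤ → Fin 4 → K) where
  toFun ψ := fun k => ψ k ᵥ* g
  map_add' := by
    intro x y
    funext k
    simp [Matrix.add_vecMul]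
  map_smul' := by
    intro c x
    funext k
    simp [Matrix.smul_vecMul]

/-- Projective naturality of the flexes and of the monodromy operator. -/
theorem class_equiv (a b : ℤ) (n : ℕ) (p r : K) (M M₁ g : Matrix (Fin 4) (Fin 4) K)
    (hg : g.det ≠ 0) (m : K) (s : ℤ → K) (hs : ∀ k, s k ≠ 0 ∧ s (k + n) = m * s k)
    (V V₁ : ℤ → Fin 4 → K)
    (hV : ∀ k, V (k + n) = M *ᵥ V k) (hV₁ : ∀ k, V₁ (k + n) = M₁ *ᵥ V₁ k)
    (hM₁ : M₁ * g = m • (g * M)) (hVV : ∀ k, V₁ k = s k • (g *ᵥ V k)) :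
    ∃ e : flexes a b p r V ≃ₗ[K] flexes a b p r V₁,
      ∀ ψ, monodromy hV₁ a b p r (e ψ) = m ^ 2 • e (monodromy hV a b p r ψ) := by
  have hgu : IsUnit g.det := isUnit_iff_ne_zero.2 hg
  have hgi : g⁻¹ * g = 1 := Matrix.nonsing_inv_mul _ hgu
  have hig : g * g⁻¹ = 1 := Matrix.mul_nonsing_inv _ hgu
  have hdot : ∀ (x : Fin 4 → K) (y : Fin 4 → K), (x ᵥ* g⁻¹) ⬝ᵥ (g *ᵥ y) = x ⬝ᵥ y := by
    intro x y
    rw [← Matrix.dotProduct_mulVec, Matrix.mulVec_mulVec, hgi, Matrix.one_mulVec]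
  have hfwd : ∀ ψ ∈ flexes a b p r V,
      ((scaleOp s) ∘ₗ (compOp g⁻¹)) ψ ∈ flexes a b p r V₁ := by
    intro ψ hψ
    have h1 : (fun k => ψ k ᵥ* g⁻¹) ∈ flexes a b p r (fun k => g *ᵥ V k) := by
      intro k
      simp only [hdot]
      exact hψ k
    exact flexes_scale a b p r (fun k => g *ᵥ V k) V₁ s hVV _ h1
  have hbwd : ∀ ψ ∈ flexes a b p r V₁,
      ((compOp g) ∘ₗ (scaleOp fun k => (s k)⁻¹)) ψ ∈ flexes a b p r V := by
    intro ψ hψ
    have h1 : (fun k => (s k)⁻¹ • ψ k) ∈ flexes a b p r (fun k => g *ᵥ V k) := by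
      refine flexes_scale a b p r V₁ _ (fun k => (s k)⁻¹) ?_ ψ hψ
      intro k
      rw [hVV, smul_smul, inv_mul_cancel₀ (hs k).1, one_smul]
    intro k
    have h2 := h1 k
    simp only [Matrix.dotProduct_mulVec] at h2
    exact h2
  refine ⟨LinearEquiv.ofLinear (((scaleOp s) ∘ₗ (compOp g⁻¹)).restrict hfwd)
    (((compOp g) ∘ₗ (scaleOp fun k => (s k)⁻¹)).restrict hbwd) ?_ ?_, ?_⟩
  · apply LinearMap.ext
    rintro ⟨ψ, hψ⟩
    apply Subtype.ext
    funext k
    change s k • (((s k)⁻¹ • ψ k) ᵥ* g ᵥ* g⁻¹) = ψ k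
    rw [Matrix.vecMul_vecMul, hig, Matrix.vecMul_one, smul_smul, mul_inv_cancel₀ (hs k).1, one_smul]
  · apply LinearMap.ext
    rintro ⟨ψ, hψ⟩
    apply Subtype.ext
    funext k
    change ((s k)⁻¹ • (s k • (ψ k ᵥ* g⁻¹))) ᵥ* g = ψ k
    rw [smul_smul, inv_mul_cancel₀ (hs k).1, one_smul, Matrix.vecMul_vecMul, hgi, Matrix.vecMul_one]
  · rintro ⟨ψ, hψ⟩
    apply Subtype.ext
    funext k
    change (s (k + n) • (ψ (k + n) ᵥ* g⁻¹)) ᵥ* M₁ = m ^ 2 • (s k • ((ψ (k + n) ᵥ* M) ᵥ* g⁻¹))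
    have hM₂ : g⁻¹ * M₁ = m • (M * g⁻¹) := by
      calc g⁻¹ * M₁ = g⁻¹ * (M₁ * g) * g⁻¹ := by rw [mul_assoc, mul_assoc, hig, mul_one]
        _ = m • (M * g⁻¹) := by
          rw [hM₁, Matrix.mul_smul, Matrix.smul_mul, ← mul_assoc, hgi, one_mul]
    rw [Matrix.smul_vecMul, Matrix.vecMul_vecMul, hM₂, (hs k).2, Matrix.vecMul_smul,
      Matrix.vecMul_vecMul, smul_smul, smul_smul]
    congr 1
    ring

/-- Homogeneous coordinates `V` of a twisted `n`-gon in projective 3-space, together with a linear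
lift `M` of its monodromy. -/
structure TwistedPoly (K : Type*) [Field K] (n : ℕ) where
  V : ℤ → Fin 4 → K
  M : Matrix (Fin 4) (Fin 4) K
  det_ne : M.det ≠ 0
  twist : ∀ k, V (k + n) = M *ᵥ V k

/-- The space of Floquet flexes, as a type. -/
def FlexSpace (a b : ℤ) (p r : K) (V : ℤ → Fin 4 → K) := ↥(flexes a b p r V)

instance flexGroup (a b : ℤ) (p r : K) (V : ℤ → Fin 4 → K) : AddCommGroup (FlexSpace a b p r V) :=
  inferInstanceAs (AddCommGroup ↥(flexes a b p r V))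

instance flexModule (a b : ℤ) (p r : K) (V : ℤ → Fin 4 → K) : Module K (FlexSpace a b p r V) :=
  inferInstanceAs (Module K ↥(flexes a b p r V))

/-- The monodromy operator `ψ ↦ (ψ (k + n) ∘ M)_k` on the space of Floquet flexes of a twisted
polygon. -/
def TwistedPoly.mono {n : ℕ} (X : TwistedPoly K n) (a b : ℤ) (p r : K) :
    FlexSpace a b p r X.V →ₗ[K] FlexSpace a b p r X.V :=
  (shiftOp n X.M).restrict (shiftOp_mem X.twist a b p r)

/-- `det (w - A)`. -/
noncomputable def specDet {E : Type*} [AddCommGroup E] [Module K E] (A : E →ₗ[K] E) (w : K) : K :=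
  LinearMap.det (w • LinearMap.id - A)

/-- `B` is conjugate to `c • A`. -/
def ConjBy (c : K) {E F : Type*} [AddCommGroup E] [Module K E] [AddCommGroup F] [Module K F]
    (A : E →ₗ[K] E) (B : F →ₗ[K] F) : Prop :=
  ∃ e : E ≃ₗ[K] F, ∀ x, B (e x) = c • e (A x)

/-- `X` and `Y` represent the same projective class of twisted polygons; `m` is the ratio of the
two linear lifts of the monodromy. -/
def ProjEquiv {n : ℕ} (m : K) (X Y : TwistedPoly K n) : Prop :=
  ∃ (g : Matrix (Fin 4) (Fin 4) K) (s : ℤ → K), g.det ≠ 0 ∧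
    (∀ k, s k ≠ 0 ∧ s (k + n) = m * s k) ∧ Y.M * g = m • (g * X.M) ∧
    ∀ k, Y.V k = s k • (g *ᵥ X.V k)

theorem spec_eq_of_conj {E F : Type*} [AddCommGroup E] [Module K E] [AddCommGroup F] [Module K F]
    (A : E →ₗ[K] E) (B : F →ₗ[K] F) (h : ConjBy 1 A B) (w : K) : specDet A w = specDet B w := by
  obtain ⟨e, he⟩ := h
  have hc : (w • LinearMap.id - B) =
      e.toLinearMap ∘ₗ (w • LinearMap.id - A) ∘ₗ e.symm.toLinearMap := by
    apply LinearMap.ext
    intro φ
    have h1 := he (e.symm φ)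
    rw [LinearEquiv.apply_symm_apply, one_smul] at h1
    simp only [LinearMap.sub_apply, LinearMap.smul_apply, LinearMap.id_apply,
      LinearMap.comp_apply, LinearEquiv.coe_coe, map_sub, map_smul,
      LinearEquiv.apply_symm_apply, h1]
  unfold specDet
  rw [hc, LinearMap.det_conj]

/-- **Lax representation with two spectral parameters for `T_{(a,b),(a,b)}` in projective
3-space**, for all `a, b ≥ 1` and every period `n`. -/
theorem result (a b n : ℕ) (ha : 0 < a) (hb : 0 < b) (p r : K) (hp : p ≠ 0) (hr : r ≠ 0)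
    (X : TwistedPoly K n) (hX : Nondeg a b X.V) :
    -- the flexes form a space of dimension `2 (a + b)`
    finrank K (FlexSpace a b p r X.V) = 2 * (a + b) ∧
    -- the monodromy operator depends only on the projective class
    (∀ (Y : TwistedPoly K n) (m : K), ProjEquiv m X Y →
      ConjBy (m ^ 2) (X.mono a b p r) (Y.mono a b p r)) ∧
    -- the map `T_{(a,b),(a,b)}` conjugates the monodromy operators
    (∀ Y : TwistedPoly K n, Y.M = X.M → NondegPlanes a b X.V → IsImage a b X.V Y.V →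
      Nondeg a b Y.V → ConjBy 1 (X.mono a b p r) (Y.mono a b p r) ∧
        ∀ w, specDet (X.mono a b p r) w = specDet (Y.mono a b p r) w) := by
  refine ⟨(finrank_flexes a b ha hb p r hp hr X.V hX).2, ?_, ?_⟩
  · rintro Y m ⟨g, s, hg, hs, hM, hVV⟩
    exact class_equiv a b n p r X.M Y.M g hg m s hs X.V Y.V X.twist Y.twist hM hVV
  · intro Y hM h2 hT h3
    obtain ⟨V, M, hdet, hV⟩ := X
    obtain ⟨V', M', hdet', hV'⟩ := Y
    simp only at hM
    subst hM
    obtain ⟨e, he⟩ := image_equiv a b n ha hb M' hdet V V' hV hV' hT hX h2 h3 p r hp hr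
    have hconj : ConjBy 1 ((⟨V, M', hdet, hV⟩ : TwistedPoly K n).mono a b p r)
        ((⟨V', M', hdet', hV'⟩ : TwistedPoly K n).mono a b p r) :=
      ⟨e, fun x => by rw [one_smul]; exact (he x).symm⟩
    exact ⟨hconj, fun w => spec_eq_of_conj _ _ hconj w⟩

/-! ### The hypotheses can be satisfied -/

/-- Points of the moment curve. -/
def momentPt (d : Fin 4 → K) (y : K) : ℤ → Fin 4 → K :=
  fun k => ![d 0, d 1 * y ^ k, d 2 * (y ^ k) ^ 2, d 3 * (y ^ k) ^ 3]

theorem moment_li (d : Fin 4 → K) (hd : ∀ i, d i ≠ 0) (y : K) (k₁ k₂ k₃ k₄ : ℤ)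
    (h : Function.Injective ![y ^ k₁, y ^ k₂, y ^ k₃, y ^ k₄]) :
    LinearIndependent K ![momentPt d y k₁, momentPt d y k₂, momentPt d y k₃, momentPt d y k₄] := by
  have h1 : (Matrix.vandermonde ![y ^ k₁, y ^ k₂, y ^ k₃, y ^ k₄]).det ≠ 0 :=
    Matrix.det_vandermonde_ne_zero_iff.2 h
  have h2 : (of ![momentPt d y k₁, momentPt d y k₂, momentPt d y k₃, momentPt d y k₄]) =
      Matrix.vandermonde ![y ^ k₁, y ^ k₂, y ^ k₃, y ^ k₄] * Matrix.diagonal d := by
    ext i j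
    rw [Matrix.mul_diagonal]
    fin_cases i <;> fin_cases j <;> simp [momentPt, Matrix.vandermonde, mul_comm]
  have h3 : IsUnit (of ![momentPt d y k₁, momentPt d y k₂, momentPt d y k₃,
      momentPt d y k₄]).det := by
    rw [h2, Matrix.det_mul, Matrix.det_diagonal]
    exact isUnit_iff_ne_zero.2 (mul_ne_zero h1 (Finset.prod_ne_zero_iff.2 fun i _ => hd i))
  exact Matrix.linearIndependent_rows_iff_isUnit.2 ((Matrix.isUnit_iff_isUnit_det _).2 h3)

theorem inj_of_dist (a b : ℕ) (ha : 0 < a) (hb : 0 < b) (hab : a ≠ b) (y : ℝ) (hy : 1 < y) (k : ℤ) :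
    Function.Injective ![y ^ k, y ^ (k + (a : ℤ)), y ^ (k + (b : ℤ)), y ^ (k + ((a : ℤ) + b))] := by
  have hz : Function.Injective (fun m : ℤ => y ^ m) := zpow_right_injective₀ (by linarith) (by linarith)
  have : ![y ^ k, y ^ (k + (a : ℤ)), y ^ (k + (b : ℤ)), y ^ (k + ((a : ℤ) + b))] =
      (fun m : ℤ => y ^ m) ∘ ![k, k + (a : ℤ), k + (b : ℤ), k + ((a : ℤ) + b)] := by
    funext i
    fin_cases i <;> rfl
  rw [this]
  apply hz.comp
  intro i j hij
  fin_cases i <;> fin_cases j <;> simp at hij ⊢ <;> omega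

/-- The hypotheses of `result` are satisfiable for all `a ≠ b` and all `n` over the reals. -/
theorem nonvacuous (a b n : ℕ) (ha : 0 < a) (hb : 0 < b) (hab : a ≠ b) :
    ∃ X Y : TwistedPoly ℝ n, Nondeg a b X.V ∧ Y.M = X.M ∧ NondegPlanes a b X.V ∧
      IsImage a b X.V Y.V ∧ Nondeg a b Y.V := by
  set y : ℝ := 2 with hy
  have hy1 : (1 : ℝ) < y := by norm_num [hy]
  have hy0 : y ≠ 0 := by norm_num [hy]
  set A : ℝ := y ^ a with hA
  set C : ℝ := y ^ (a + b) with hC
  have hApos : 0 < A := by positivity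
  have hCpos : 0 < C := by positivity
  set E1 : ℝ := 1 + A + C with hE1
  set E2 : ℝ := A + C + A * C with hE2
  set E3 : ℝ := A * C with hE3
  have p1 : 0 < E1 := by positivity
  have p2 : 0 < E2 := by positivity
  have p3 : 0 < E3 := by positivity
  set d : Fin 4 → ℝ := ![1, E3 * E1 / E2, E3 * E2 / E1, E3 ^ 2] with hd
  have hd0 : ∀ i, d i ≠ 0 := by
    intro i
    fin_cases i
    · simp [hd]
    · simp only [hd]; change E3 * E1 / E2 ≠ 0; positivity
    · simp only [hd]; change E3 * E2 / E1 ≠ 0; positivity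
    · simp only [hd]; change E3 ^ 2 ≠ 0; positivity
  set M : Matrix (Fin 4) (Fin 4) ℝ := Matrix.diagonal ![1, y ^ n, (y ^ n) ^ 2, (y ^ n) ^ 3] with hM
  have hMdet : M.det ≠ 0 := by
    rw [hM, Matrix.det_diagonal, Fin.prod_univ_four]
    simp only [cons_val_zero, cons_val_one, cons_val]
    positivity
  have htw : ∀ c : Fin 4 → ℝ, ∀ k : ℤ, momentPt c y (k + n) = M *ᵥ momentPt c y k := by
    intro c k
    have e : y ^ (k + (n : ℤ)) = y ^ k * y ^ n := by
      rw [zpow_add₀ hy0, zpow_natCast]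
    funext i
    rw [hM, Matrix.mulVec_diagonal]
    fin_cases i
    · simp [momentPt]
    · simp [momentPt, e]; ring
    · simp [momentPt, e]; ring
    · simp [momentPt, e]; ring
  have hX : Nondeg (a : ℤ) b (momentPt (fun _ => 1) y) := fun k =>
    moment_li _ (fun _ => one_ne_zero) y _ _ _ _ (inj_of_dist a b ha hb hab y hy1 k)
  have hY : Nondeg (a : ℤ) b (momentPt d y) := fun k =>
    moment_li _ hd0 y _ _ _ _ (inj_of_dist a b ha hb hab y hy1 k)
  -- formula for the planes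
  have hW : ∀ k x, dualPoly (a : ℤ) b (momentPt (fun _ => 1) y) k ⬝ᵥ x =
      -((y ^ k) ^ 3 * ((A - 1) * (C - 1) * (C - A))) *
        (-(E3 * (y ^ k) ^ 3) * x 0 + E2 * (y ^ k) ^ 2 * x 1 - E1 * y ^ k * x 2 + x 3) := by
    intro k x
    have ea : y ^ (k + (a : ℤ)) = y ^ k * A := by rw [zpow_add₀ hy0, zpow_natCast]
    have ec : y ^ (k + ((a : ℤ) + b)) = y ^ k * C := by
      rw [zpow_add₀ hy0, hC]
      congr 1
    simp only [dualPoly, cr, momentPt, dotProduct, Fin.sum_univ_four, cons_val_zero, cons_val_one,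
      cons_val, ea, ec, hE1, hE2, hE3]
    ring
  have hpre : ∀ k : ℤ, -((y ^ k) ^ 3 * ((A - 1) * (C - 1) * (C - A))) ≠ 0 := by
    intro k
    have q1 : A ≠ 1 := by
      rw [hA]; exact (one_lt_pow₀ hy1 (by omega)).ne'
    have q2 : C ≠ 1 := by
      rw [hC]; exact (one_lt_pow₀ hy1 (by omega)).ne'
    have q3 : C ≠ A := by
      rw [hC, hA]; exact (pow_lt_pow_right₀ hy1 (by omega)).ne'
    have q4 : (y ^ k) ≠ 0 := zpow_ne_zero _ hy0
    exact neg_ne_zero.2 (mul_ne_zero (pow_ne_zero _ q4)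
      (mul_ne_zero (mul_ne_zero (sub_ne_zero.2 q1) (sub_ne_zero.2 q2)) (sub_ne_zero.2 q3)))
  have hzero : ∀ (k : ℤ) (x : Fin 4 → ℝ), x ∈ plane (a : ℤ) b (momentPt (fun _ => 1) y) k →
      ![x 3, -E1 * x 2, E2 * x 1, -E3 * x 0] ⬝ᵥ momentPt (fun _ => 1) y k = 0 := by
    intro k x hx
    have h1 := dual_dot_of_mem _ _ _ _ _ hx
    rw [hW] at h1
    have h2 := (mul_eq_zero.1 h1).resolve_left (hpre k)
    simp only [momentPt, dotProduct, Fin.sum_univ_four, cons_val_zero, cons_val_one, cons_val]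
    linear_combination h2
  refine ⟨⟨momentPt (fun _ => 1) y, M, hMdet, htw _⟩, ⟨momentPt d y, M, hMdet, htw _⟩, hX, rfl,
    ?_, ?_, hY⟩
  · intro k
    rw [eq_bot_iff]
    rintro x ⟨⟨⟨m1, m2⟩, m3⟩, m4⟩
    have h0 := eq_zero_of_dots _ _ _ _ _ (hX k) (hzero _ _ m1) (hzero _ _ m2) (hzero _ _ m3)
      (hzero _ _ m4)
    have g0 := congrFun h0 0
    have g1 := congrFun h0 1
    have g2 := congrFun h0 2
    have g3 := congrFun h0 3
    simp only [cons_val_zero, cons_val_one, cons_val, Pi.zero_apply, mul_eq_zero, neg_eq_zero,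
      p1.ne', p2.ne', p3.ne', false_or] at g0 g1 g2 g3
    rw [Submodule.mem_bot]
    funext i
    fin_cases i
    · exact g3
    · exact g2
    · exact g1
    · exact g0
  · intro k
    have hval : ∀ (j : ℤ) (u : ℝ), y ^ j = y ^ k * u → (u - 1) * (u - A) * (u - C) = 0 →
        dualPoly (a : ℤ) b (momentPt (fun _ => 1) y) j ⬝ᵥ momentPt d y k = 0 := by
      intro j u hj hu
      rw [hW, hj]
      have : (-(E3 * (y ^ k * u) ^ 3) * momentPt d y k 0 + E2 * (y ^ k * u) ^ 2 * momentPt d y k 1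
          - E1 * (y ^ k * u) * momentPt d y k 2 + momentPt d y k 3) =
          - E3 * (y ^ k) ^ 3 * ((u - 1) * (u - A) * (u - C)) := by
        simp only [momentPt, hd, cons_val_zero, cons_val_one, cons_val]
        field_simp
        simp only [hE1, hE2, hE3]
        ring
      rw [this, hu]
      ring
    have hmem : ∀ (j : ℤ) (u : ℝ), y ^ j = y ^ k * u → (u - 1) * (u - A) * (u - C) = 0 →
        momentPt d y k ∈ plane (a : ℤ) b (momentPt (fun _ => 1) y) j := by
      intro j u hj hu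
      exact mem_of_dual_dot _ _ _ hX _ _ (hval j u hj hu)
    refine ⟨?_, ⟨?_, ?_⟩, ?_⟩
    · intro h0
      have := congrFun h0 0
      simp [momentPt, hd] at this
    · exact hmem k 1 (by ring) (by ring)
    · exact hmem (k + a) A (by rw [zpow_add₀ hy0, zpow_natCast]) (by ring)
    · refine hmem (k + (a + b)) C ?_ (by ring)
      rw [zpow_add₀ hy0, hC]
      congr 1

end Pool.Agent.Results.MP_62a5ad_mp.SpectralLax
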